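import Pool.Agent.Helper81.AN.HS

/-! Energy bounds for the three term recursion `y (n+2) = P y (n+1) - y n` and the discrete
Duhamel formula. -/

set_option autoImplicit false
set_option linter.unusedSectionVars false

open scoped ENNReal InnerProductSpace

namespace AN81

section ring
variable {R : Type*} [Ring R]

/-- sine family -/
def sq (P : R) : ℕ → R
  | 0 => 0
  | 1 => 1
  | (n + 2) => P * sq P (n + 1) - sq P n

/-- cosine family, normalised by `cq 0 = 2` -/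
def cq (P : R) : ℕ → R
  | 0 => 2
  | 1 => P
  | (n + 2) => P * cq P (n + 1) - cq P n

theorem sq_add_two (P : R) (n : ℕ) : sq P (n + 2) = P * sq P (n + 1) - sq P n := rfl
theorem cq_add_two (P : R) (n : ℕ) : cq P (n + 2) = P * cq P (n + 1) - cq P n := rfl
@[simp] theorem sq_zero (P : R) : sq P 0 = 0 := rfl
@[simp] theorem sq_one (P : R) : sq P 1 = 1 := rfl
@[simp] theorem cq_zero (P : R) : cq P 0 = 2 := rfl
@[simp] theorem cq_one (P : R) : cq P 1 = P := rfl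

theorem sq_sub_sq (P : R) (n : ℕ) : sq P (n + 2) - sq P n = cq P (n + 1) := by
  induction n using Nat.twoStepInduction with
  | zero => simp [sq_add_two]
  | one =>
    have h2 : (2 : R) = 1 + 1 := one_add_one_eq_two.symm
    change P * (P * 1 - 0) - 1 - 1 = P * P - 2
    rw [h2, mul_one, sub_zero]
    abel
  | more n ih1 ih2 =>
    have a1 : sq P (n + 2 + 2) = P * sq P (n + 1 + 2) - sq P (n + 2) := rfl
    have a3 : cq P (n + 2 + 1) = P * cq P (n + 1 + 1) - cq P (n + 1) := rfl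
    have a4 : sq P (n + 2) = P * sq P (n + 1) - sq P n := rfl
    rw [a1, a3, ← ih1, ← ih2, mul_sub, a4]
    abel

theorem commute_cq (P : R) (n : ℕ) : Commute P (cq P n) := by
  induction n using Nat.twoStepInduction with
  | zero => exact Commute.ofNat_right P 2
  | one => exact Commute.refl P
  | more n ih1 ih2 =>
    rw [cq_add_two]
    exact ((Commute.refl P).mul_right ih2).sub_right ih1

theorem commute_cq_cq {P Q : R} (h : Commute P Q) (m n : ℕ) : Commute (cq P m) (cq Q n) := by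
  have h1 : ∀ n, Commute P (cq Q n) := by
    intro n
    induction n using Nat.twoStepInduction with
    | zero => exact Commute.ofNat_right P 2
    | one => exact h
    | more n ih1 ih2 =>
      rw [cq_add_two]
      exact (h.mul_right ih2).sub_right ih1
  induction m using Nat.twoStepInduction with
  | zero => exact Commute.ofNat_left 2 _
  | one => exact h1 n
  | more m ih1 ih2 =>
    rw [cq_add_two]
    exact ((h1 n).mul_left ih2).sub_left ih1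

theorem cq_mul_cq (P : R) (k n : ℕ) : cq P (n + k) * cq P k = cq P (n + 2 * k) + cq P n := by
  induction k using Nat.twoStepInduction generalizing n with
  | zero =>
    simp only [Nat.mul_zero, Nat.add_zero, cq_zero]
    noncomm_ring
  | one =>
    have h := cq_add_two P n
    rw [cq_one, ← (commute_cq P (n + 1)).eq, show n + 2 * 1 = n + 2 from rfl, h]
    noncomm_ring
  | more k ih1 ih2 =>
    have e1 : cq P (n + (k + 2)) * cq P (k + 2)
        = cq P (n + (k + 2)) * cq P (k + 1) * P - cq P (n + (k + 2)) * cq P k := by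
      rw [cq_add_two P k, mul_sub, (commute_cq P (k + 1)).eq, mul_assoc]
    have h1 := ih2 (n + 1)
    rw [show n + 1 + (k + 1) = n + (k + 2) by ring] at h1
    have h2 := ih1 (n + 2)
    rw [show n + 2 + k = n + (k + 2) by ring] at h2
    rw [e1, h1, h2, show n + 1 + 2 * (k + 1) = n + 2 * k + 3 by ring,
      show n + 2 + 2 * k = n + 2 * k + 2 by ring, show n + 2 * (k + 2) = n + 2 * k + 4 by ring,
      add_mul, ← (commute_cq P (n + 2 * k + 3)).eq, ← (commute_cq P (n + 1)).eq]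
    have h3 := cq_add_two P (n + 2 * k + 2)
    have h4 := cq_add_two P n
    rw [show n + 2 * k + 2 + 2 = n + 2 * k + 4 by ring,
      show n + 2 * k + 2 + 1 = n + 2 * k + 3 by ring] at h3
    rw [h3, h4]
    noncomm_ring

end ring

variable {H K : Type*} [NormedAddCommGroup H] [InnerProductSpace ℂ H] [CompleteSpace H]
  [NormedAddCommGroup K] [InnerProductSpace ℂ K] [CompleteSpace K]

/-- energy -/
noncomputable def en (P : H →L[ℂ] H) (x y : H) : ℝ :=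
  ‖x‖ ^ 2 + ‖y‖ ^ 2 - (⟪P x, y⟫_ℂ).re

theorem en_step (P : H →L[ℂ] H) (hP : ∀ x y, ⟪P x, y⟫_ℂ = ⟪x, P y⟫_ℂ) (x y : H) :
    en P y (P y - x) = en P x y := by
  unfold en
  have h1 : ‖P y - x‖ ^ 2 = (⟪P y - x, P y - x⟫_ℂ).re := by
    have := inner_self_eq_norm_sq (𝕜 := ℂ) (P y - x)
    simpa using this.symm
  have h2 : (⟪P y - x, P y - x⟫_ℂ).re = (⟪P y, P y - x⟫_ℂ).re - (⟪x, P y - x⟫_ℂ).re := by
    rw [inner_sub_left, Complex.sub_re]
  have h3 : (⟪x, P y - x⟫_ℂ).re = (⟪P x, y⟫_ℂ).re - ‖x‖ ^ 2 := by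
    rw [inner_sub_right, Complex.sub_re, hP x y]
    have := inner_self_eq_norm_sq (𝕜 := ℂ) x
    simp only [RCLike.re_to_complex] at this
    rw [this]
  rw [h1, h2, h3]
  ring

theorem en_lower (P : H →L[ℂ] H) (hn : ‖P‖ ≤ 1) (x y : H) :
    (‖x‖ ^ 2 + ‖y‖ ^ 2) / 2 ≤ en P x y := by
  unfold en
  have h1 : (⟪P x, y⟫_ℂ).re ≤ ‖P x‖ * ‖y‖ :=
    (Complex.re_le_norm _).trans (norm_inner_le_norm _ _)
  have h2 : ‖P x‖ ≤ ‖x‖ := by
    calc ‖P x‖ ≤ ‖P‖ * ‖x‖ := P.le_opNorm x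
      _ ≤ 1 * ‖x‖ := by gcongr
      _ = ‖x‖ := one_mul _
  have h3 : ‖P x‖ * ‖y‖ ≤ ‖x‖ * ‖y‖ := by gcongr
  nlinarith [sq_nonneg (‖x‖ - ‖y‖)]

theorem en_upper (P : H →L[ℂ] H) (hn : ‖P‖ ≤ 1) (x y : H) :
    en P x y ≤ 3 / 2 * (‖x‖ ^ 2 + ‖y‖ ^ 2) := by
  unfold en
  have h1 : -(⟪P x, y⟫_ℂ).re ≤ ‖P x‖ * ‖y‖ :=
    (neg_le_abs _).trans ((Complex.abs_re_le_norm _).trans (norm_inner_le_norm _ _))
  have h2 : ‖P x‖ ≤ ‖x‖ := by
    calc ‖P x‖ ≤ ‖P‖ * ‖x‖ := P.le_opNorm x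
      _ ≤ 1 * ‖x‖ := by gcongr
      _ = ‖x‖ := one_mul _
  have h3 : ‖P x‖ * ‖y‖ ≤ ‖x‖ * ‖y‖ := by gcongr
  nlinarith [sq_nonneg (‖x‖ - ‖y‖)]

theorem en_sq (P : H →L[ℂ] H) (hP : ∀ x y, ⟪P x, y⟫_ℂ = ⟪x, P y⟫_ℂ) (v : H) (n : ℕ) :
    en P (sq P n v) (sq P (n + 1) v) = ‖v‖ ^ 2 := by
  induction n with
  | zero => simp [en]
  | succ n ih =>
    rw [← ih, ← en_step P hP (sq P n v)]
    rfl

theorem en_cq (P : H →L[ℂ] H) (hP : ∀ x y, ⟪P x, y⟫_ℂ = ⟪x, P y⟫_ℂ) (v : H) (n : ℕ) :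
    en P (cq P n v) (cq P (n + 1) v) ≤ 4 * ‖v‖ ^ 2 := by
  induction n with
  | zero =>
    have h0 : cq P 0 v = (2 : ℂ) • v := by
      rw [cq_zero]
      change ((2 : H →L[ℂ] H)) v = _
      rw [← one_add_one_eq_two, _root_.add_apply, one_apply_eq_self,
        two_smul]
    have h1 : cq P (0 + 1) v = P v := rfl
    rw [h0, h1]
    unfold en
    have h3 : (⟪P ((2 : ℂ) • v), P v⟫_ℂ).re = 2 * ‖P v‖ ^ 2 := by
      rw [map_smul, inner_smul_left, inner_self_eq_norm_sq_to_K]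
      simp [← Complex.ofReal_pow]
    rw [h3, norm_smul]
    have h4 : 0 ≤ ‖P v‖ ^ 2 := by positivity
    simp
    nlinarith
  | succ n ih =>
    have h := en_step P hP (cq P n v) (cq P (n + 1) v)
    have h2 : P (cq P (n + 1) v) - cq P n v = cq P (n + 1 + 1) v := rfl
    rw [h2] at h
    rw [h]; exact ih

theorem norm_sq_apply_le (P : H →L[ℂ] H) (hP : ∀ x y, ⟪P x, y⟫_ℂ = ⟪x, P y⟫_ℂ)
    (hn : ‖P‖ ≤ 1) (v : H) (n : ℕ) : ‖sq P n v‖ ≤ 2 * ‖v‖ := by
  have h1 := en_sq P hP v n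
  have h2 := en_lower P hn (sq P n v) (sq P (n + 1) v)
  have h4 : 0 ≤ ‖sq P (n + 1) v‖ ^ 2 := by positivity
  have h5 : 0 ≤ ‖v‖ ^ 2 := by positivity
  have h3 : ‖sq P n v‖ ^ 2 ≤ (2 * ‖v‖) ^ 2 := by nlinarith
  exact (sq_le_sq₀ (norm_nonneg _) (by positivity)).1 h3

theorem norm_cq_apply_le (P : H →L[ℂ] H) (hP : ∀ x y, ⟪P x, y⟫_ℂ = ⟪x, P y⟫_ℂ)
    (hn : ‖P‖ ≤ 1) (v : H) (n : ℕ) : ‖cq P n v‖ ≤ 3 * ‖v‖ := by
  have h1 := en_cq P hP v n
  have h2 := en_lower P hn (cq P n v) (cq P (n + 1) v)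
  have h4 : 0 ≤ ‖cq P (n + 1) v‖ ^ 2 := by positivity
  have h5 : 0 ≤ ‖v‖ ^ 2 := by positivity
  have h3 : ‖cq P n v‖ ^ 2 ≤ (3 * ‖v‖) ^ 2 := by nlinarith
  exact (sq_le_sq₀ (norm_nonneg _) (by positivity)).1 h3

theorem norm_sq_le (P : H →L[ℂ] H) (hP : ∀ x y, ⟪P x, y⟫_ℂ = ⟪x, P y⟫_ℂ)
    (hn : ‖P‖ ≤ 1) (n : ℕ) : ‖sq P n‖ ≤ 2 :=
  ContinuousLinearMap.opNorm_le_bound _ (by norm_num) fun v => norm_sq_apply_le P hP hn v n

theorem norm_cq_le (P : H →L[ℂ] H) (hP : ∀ x y, ⟪P x, y⟫_ℂ = ⟪x, P y⟫_ℂ)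
    (hn : ‖P‖ ≤ 1) (n : ℕ) : ‖cq P n‖ ≤ 3 :=
  ContinuousLinearMap.opNorm_le_bound _ (by norm_num) fun v => norm_cq_apply_le P hP hn v n

theorem sq_lower (P : H →L[ℂ] H) (hP : ∀ x y, ⟪P x, y⟫_ℂ = ⟪x, P y⟫_ℂ)
    (hn : ‖P‖ ≤ 1) (v : H) (n : ℕ) :
    2 / 3 * ‖v‖ ^ 2 ≤ ‖sq P n v‖ ^ 2 + ‖sq P (n + 1) v‖ ^ 2 := by
  have h1 := en_sq P hP v n
  have h2 := en_upper P hn (sq P n v) (sq P (n + 1) v)
  linarith

/-- discrete Duhamel formula -/
theorem duhamel (P' : K →L[ℂ] K) (F : ℕ → H →L[ℂ] K) (R : ℕ → H →L[ℂ] K)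
    (h0 : R 0 = 0) (h1 : R 1 = F 0)
    (h : ∀ m, R (m + 2) = P' ∘L R (m + 1) - R m + F (m + 1)) (m : ℕ) :
    R m = ∑ k ∈ Finset.range m, sq P' (m - k) ∘L F k := by
  induction m using Nat.twoStepInduction with
  | zero => simpa using h0
  | one => rw [h1]; ext v; simp
  | more m ih1 ih2 =>
    rw [h, ih1, ih2, Finset.sum_range_succ _ (m + 1), Finset.sum_range_succ _ m,
      Finset.sum_range_succ _ m]
    have e1 : m + 2 - (m + 1) = 1 := by omega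
    have e2 : m + 2 - m = 2 := by omega
    have e3 : m + 1 - m = 1 := by omega
    rw [e1, e2, e3]
    have e4 : ∑ k ∈ Finset.range m, sq P' (m + 2 - k) ∘L F k
        = P' ∘L (∑ k ∈ Finset.range m, sq P' (m + 1 - k) ∘L F k)
          - ∑ k ∈ Finset.range m, sq P' (m - k) ∘L F k := by
      rw [ContinuousLinearMap.comp_finsetSum, ← Finset.sum_sub_distrib]
      refine Finset.sum_congr rfl fun k hk => ?_
      have hk' : k < m := Finset.mem_range.1 hk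
      have e5 : m + 2 - k = (m - k) + 2 := by omega
      have e6 : m + 1 - k = (m - k) + 1 := by omega
      rw [e5, e6, sq_add_two]
      ext v
      simp
    rw [e4]
    ext v
    simp [sq_add_two]
    abel

end AN81
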