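import Mathlib

/-! Hilbert-Schmidt toolbox: squared Hilbert-Schmidt sums relative to a Hilbert basis. -/

set_option autoImplicit false
set_option linter.unusedSectionVars false

open scoped ENNReal InnerProductSpace

namespace AN81

variable {H K L : Type*} [NormedAddCommGroup H] [InnerProductSpace ℂ H] [CompleteSpace H]
  [NormedAddCommGroup K] [InnerProductSpace ℂ K] [CompleteSpace K]
  [NormedAddCommGroup L] [InnerProductSpace ℂ L] [CompleteSpace L]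

/-- squared Hilbert-Schmidt norm with respect to a Hilbert basis -/
noncomputable def hs {ι : Type*} (e : HilbertBasis ι ℂ H) (Z : H →L[ℂ] K) : ℝ≥0∞ :=
  ∑' i, ‖Z (e i)‖ₑ ^ 2

theorem parseval {κ : Type*} (f : HilbertBasis κ ℂ K) (x : K) :
    ∑' j, ‖⟪f j, x⟫_ℂ‖ₑ ^ 2 = ‖x‖ₑ ^ 2 := by
  have h := f.hasSum_inner_mul_inner x x
  have h1 : HasSum (fun j => ‖⟪f j, x⟫_ℂ‖ ^ 2) (‖x‖ ^ 2) := by
    have h2 := Complex.hasSum_re h
    have e1 : ∀ j, (⟪x, f j⟫_ℂ * ⟪f j, x⟫_ℂ).re = ‖⟪f j, x⟫_ℂ‖ ^ 2 := by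
      intro j
      rw [← inner_conj_symm x (f j), ← Complex.normSq_eq_conj_mul_self, Complex.ofReal_re,
        Complex.normSq_eq_norm_sq]
    have e2 : (⟪x, x⟫_ℂ).re = ‖x‖ ^ 2 := by
      have := inner_self_eq_norm_sq (𝕜 := ℂ) x
      simpa using this
    rw [e2] at h2
    simpa only [e1] using h2
  have h3 : ∀ y : ℝ, 0 ≤ y → ENNReal.ofReal (y ^ 2) = (ENNReal.ofReal y) ^ 2 := by
    intro y hy
    exact ENNReal.ofReal_pow hy 2
  have h4 := h1.tsum_eq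
  calc ∑' j, ‖⟪f j, x⟫_ℂ‖ₑ ^ 2 = ∑' j, ENNReal.ofReal (‖⟪f j, x⟫_ℂ‖ ^ 2) := by
        congr 1; ext j; rw [h3 _ (norm_nonneg _), ofReal_norm]
    _ = ENNReal.ofReal (∑' j, ‖⟪f j, x⟫_ℂ‖ ^ 2) :=
        (ENNReal.ofReal_tsum_of_nonneg (fun _ => by positivity) h1.summable).symm
    _ = ‖x‖ₑ ^ 2 := by rw [h4, h3 _ (norm_nonneg _), ofReal_norm]

theorem hs_adjoint {ι κ : Type*} (e : HilbertBasis ι ℂ H) (f : HilbertBasis κ ℂ K)
    (Z : H →L[ℂ] K) : hs f (ContinuousLinearMap.adjoint Z) = hs e Z := by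
  unfold hs
  calc ∑' j, ‖ContinuousLinearMap.adjoint Z (f j)‖ₑ ^ 2
      = ∑' j, ∑' i, ‖⟪e i, ContinuousLinearMap.adjoint Z (f j)⟫_ℂ‖ₑ ^ 2 := by
        congr 1; ext j; rw [parseval e]
    _ = ∑' i, ∑' j, ‖⟪e i, ContinuousLinearMap.adjoint Z (f j)⟫_ℂ‖ₑ ^ 2 := ENNReal.tsum_comm
    _ = ∑' i, ∑' j, ‖⟪f j, Z (e i)⟫_ℂ‖ₑ ^ 2 := by
        congr 1; ext i; congr 1; ext j
        rw [ContinuousLinearMap.adjoint_inner_right, ← inner_conj_symm, ← ofReal_norm,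
          ← ofReal_norm, RCLike.norm_conj]
    _ = ∑' i, ‖Z (e i)‖ₑ ^ 2 := by
        congr 1; ext i; rw [parseval f]

/-- left multiplication by a bounded operator -/
theorem hs_comp_left {ι : Type*} (e : HilbertBasis ι ℂ H) (B : K →L[ℂ] L) (Z : H →L[ℂ] K) :
    hs e (B ∘L Z) ≤ ‖B‖ₑ ^ 2 * hs e Z := by
  unfold hs
  rw [← ENNReal.tsum_mul_left]
  refine ENNReal.tsum_le_tsum fun i => ?_
  rw [← mul_pow]
  gcongr
  exact ContinuousLinearMap.le_opENorm B _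

/-- right multiplication by a bounded operator -/
theorem hs_comp_right {ι κ : Type*} (e : HilbertBasis ι ℂ H) (e' : HilbertBasis κ ℂ L)
    (Z : H →L[ℂ] K) (B : L →L[ℂ] H) :
    hs e' (Z ∘L B) ≤ ‖B‖ₑ ^ 2 * hs e Z := by
  obtain ⟨w, f, -⟩ := exists_hilbertBasis ℂ K
  rw [← hs_adjoint e' f, ← hs_adjoint e f, ContinuousLinearMap.adjoint_comp]
  refine (hs_comp_left f _ _).trans ?_
  gcongr
  rw [← ofReal_norm, ← ofReal_norm, LinearIsometryEquiv.norm_map]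

/-- independence of the basis -/
theorem hs_basis {ι κ : Type*} (e : HilbertBasis ι ℂ H) (e' : HilbertBasis κ ℂ H)
    (Z : H →L[ℂ] K) : hs e Z = hs e' Z := by
  obtain ⟨w, f, -⟩ := exists_hilbertBasis ℂ K
  rw [← hs_adjoint e f, ← hs_adjoint e' f]

theorem hs_finset_sum {ι α : Type*} (e : HilbertBasis ι ℂ H) (s : Finset α)
    (Z : α → H →L[ℂ] K) :
    hs e (∑ a ∈ s, Z a) ≤ s.card * ∑ a ∈ s, hs e (Z a) := by
  unfold hs
  rw [← Summable.tsum_finsetSum (fun a _ => ENNReal.summable), ← ENNReal.tsum_mul_left]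
  refine ENNReal.tsum_le_tsum fun i => ?_
  rw [_root_.sum_apply]
  have h1 : ‖∑ a ∈ s, Z a (e i)‖ₑ ≤ ∑ a ∈ s, ‖Z a (e i)‖ₑ := enorm_sum_le _ _
  calc ‖∑ a ∈ s, Z a (e i)‖ₑ ^ 2 ≤ (∑ a ∈ s, ‖Z a (e i)‖ₑ) ^ 2 := by gcongr
    _ ≤ s.card * ∑ a ∈ s, ‖Z a (e i)‖ₑ ^ 2 := by
        have h2 := ENNReal.inner_le_Lp_mul_Lq s (fun _ => (1 : ℝ≥0∞)) (fun a => ‖Z a (e i)‖ₑ)
          (Real.HolderConjugate.two_two)
        simp only [one_mul, ENNReal.one_rpow, Finset.sum_const, nsmul_eq_mul, mul_one] at h2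
        calc (∑ a ∈ s, ‖Z a (e i)‖ₑ) ^ 2
            ≤ ((s.card : ℝ≥0∞) ^ (1 / (2:ℝ)) *
                (∑ a ∈ s, ‖Z a (e i)‖ₑ ^ (2:ℝ)) ^ (1 / (2:ℝ))) ^ 2 := by gcongr
          _ = s.card * ∑ a ∈ s, ‖Z a (e i)‖ₑ ^ 2 := by
              rw [mul_pow, ← ENNReal.rpow_natCast, ← ENNReal.rpow_natCast, ← ENNReal.rpow_mul,
                ← ENNReal.rpow_mul]
              simp

theorem hs_add {ι : Type*} (e : HilbertBasis ι ℂ H) (Y Z : H →L[ℂ] K) :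
    hs e (Y + Z) ≤ 2 * hs e Y + 2 * hs e Z := by
  have h := hs_finset_sum e (Finset.univ : Finset (Fin 2)) ![Y, Z]
  simp only [Fin.sum_univ_two, Matrix.cons_val_zero, Matrix.cons_val_one, Finset.card_univ,
    Fintype.card_fin, Nat.cast_ofNat] at h
  rw [mul_add] at h
  exact h

end AN81
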