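import Pool.Agent.Helper81.AN.Small

/-! Signed hopping operators and their profiles; the scalar sequences `tt`, `ss`. -/

set_option autoImplicit false
set_option linter.unusedSectionVars false
set_option maxSynthPendingDepth 3

open scoped ENNReal InnerProductSpace Topology
open Filter

namespace AN81

section scalar

/-- nearest neighbour sum on `ℤ` -/
def Lop : Module.End ℝ (ℤ → ℝ) where
  toFun f := fun j => f (j - 1) + f (j + 1)
  map_add' f g := by ext j; simp only [Pi.add_apply]; ring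
  map_smul' c f := by ext j; simp only [Pi.smul_apply, smul_eq_mul, RingHom.id_apply]; ring

theorem Lop_apply (f : ℤ → ℝ) (j : ℤ) : Lop f j = f (j - 1) + f (j + 1) := rfl

/-- delta at the origin -/
def del0 : ℤ → ℝ := fun j => if j = 0 then 1 else 0

/-- cosine coefficients -/
noncomputable def tt (κ : ℝ) (m : ℕ) : ℤ → ℝ := cq (κ • Lop) m del0
/-- sine coefficients -/
noncomputable def ss (κ : ℝ) (m : ℕ) : ℤ → ℝ := sq (κ • Lop) m del0

theorem tt_add_two (κ : ℝ) (m : ℕ) (j : ℤ) :
    tt κ (m + 2) j = κ * (tt κ (m + 1) (j - 1) + tt κ (m + 1) (j + 1)) - tt κ m j := rfl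

theorem ss_add_two (κ : ℝ) (m : ℕ) (j : ℤ) :
    ss κ (m + 2) j = κ * (ss κ (m + 1) (j - 1) + ss κ (m + 1) (j + 1)) - ss κ m j := rfl

theorem tt_zero (κ : ℝ) (j : ℤ) : tt κ 0 j = 2 * del0 j := by
  have h : tt κ 0 = (2 : Module.End ℝ (ℤ → ℝ)) del0 := rfl
  rw [h, ← one_add_one_eq_two]
  change del0 j + del0 j = _
  ring

theorem tt_one (κ : ℝ) (j : ℤ) : tt κ 1 j = κ * (del0 (j - 1) + del0 (j + 1)) := rfl
theorem ss_zero (κ : ℝ) (j : ℤ) : ss κ 0 j = 0 := rfl
theorem ss_one (κ : ℝ) (j : ℤ) : ss κ 1 j = del0 j := rfl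

theorem ss_sub_ss (κ : ℝ) (m : ℕ) (j : ℤ) : ss κ (m + 2) j - ss κ m j = tt κ (m + 1) j := by
  have h := sq_sub_sq (κ • Lop) m
  have h2 := congrFun (congrArg (fun A : Module.End ℝ (ℤ → ℝ) => A del0) h) j
  exact h2

theorem j_tt (κ : ℝ) (m : ℕ) (j : ℤ) :
    (j : ℝ) * tt κ m j = m * κ * (ss κ m (j - 1) - ss κ m (j + 1)) := by
  induction m using Nat.twoStepInduction generalizing j with
  | zero =>
    rw [tt_zero]
    by_cases hj : j = 0
    · simp [hj]
    · simp [del0, hj]
  | one =>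
    rw [tt_one, ss_one, ss_one]
    simp only [del0]
    by_cases h1 : j - 1 = 0
    · have : j = 1 := by omega
      subst this
      norm_num
    · by_cases h2 : j + 1 = 0
      · have : j = -1 := by omega
        subst this
        norm_num
      · simp [h1, h2]
  | more m ih1 ih2 =>
    have a1 := ih2 (j - 1)
    have a2 := ih2 (j + 1)
    have a3 := ih1 j
    have b1 := ss_sub_ss κ m (j - 1)
    have b2 := ss_sub_ss κ m (j + 1)
    have c1 := ss_add_two κ m (j - 1)
    have c2 := ss_add_two κ m (j + 1)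
    rw [tt_add_two]
    push_cast at a1 a2 a3 ⊢
    have e : (j : ℝ) * (κ * (tt κ (m + 1) (j - 1) + tt κ (m + 1) (j + 1)) - tt κ m j)
      = κ * (((j : ℝ) - 1) * tt κ (m + 1) (j - 1) + ((j : ℝ) + 1) * tt κ (m + 1) (j + 1))
        + κ * (tt κ (m + 1) (j - 1) - tt κ (m + 1) (j + 1)) - (j : ℝ) * tt κ m j := by ring
    rw [e, a1, a2, a3, ← b1, ← b2]
    have e1 : (m + 1 : ℝ) * κ * (ss κ (m + 1) (j - 1 - 1) - ss κ (m + 1) (j - 1 + 1))
        + (m + 1 : ℝ) * κ * (ss κ (m + 1) (j + 1 - 1) - ss κ (m + 1) (j + 1 + 1))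
        = (m + 1 : ℝ) * ((ss κ (m + 2) (j - 1) + ss κ m (j - 1))
          - (ss κ (m + 2) (j + 1) + ss κ m (j + 1))) := by
      rw [c1, c2, show j - 1 + 1 = j by ring, show j + 1 - 1 = j by ring]
      ring
    rw [e1]
    ring

theorem tt_neg (κ : ℝ) (m : ℕ) (j : ℤ) : tt κ m (-j) = tt κ m j := by
  induction m using Nat.twoStepInduction generalizing j with
  | zero => rw [tt_zero, tt_zero]; simp [del0]
  | one =>
    rw [tt_one, tt_one]
    have h1 : del0 (-j - 1) = del0 (j + 1) := by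
      simp only [del0]; congr 1; exact propext ⟨fun h => by omega, fun h => by omega⟩
    have h2 : del0 (-j + 1) = del0 (j - 1) := by
      simp only [del0]; congr 1; exact propext ⟨fun h => by omega, fun h => by omega⟩
    rw [h1, h2]; ring
  | more m ih1 ih2 =>
    rw [tt_add_two, tt_add_two, ih1, show -j - 1 = -(j + 1) by ring, ih2,
      show -j + 1 = -(j - 1) by ring, ih2]
    ring

theorem tt_support (κ : ℝ) (m : ℕ) (j : ℤ) (h : (m : ℤ) < |j|) : tt κ m j = 0 := by
  induction m using Nat.twoStepInduction generalizing j with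
  | zero =>
    rw [tt_zero]
    have : j ≠ 0 := by
      rintro rfl
      simp at h
    simp [del0, this]
  | one =>
    rw [tt_one]
    have h1 : j - 1 ≠ 0 := by
      intro h1
      have : j = 1 := by omega
      subst this
      simp at h
    have h2 : j + 1 ≠ 0 := by
      intro h1
      have : j = -1 := by omega
      subst this
      simp at h
    simp [del0, h1, h2]
  | more m ih1 ih2 =>
    have h1 : (m : ℤ) + 2 < |j| := by push_cast at h; exact h
    rw [tt_add_two, ih1 j (by omega), ih2 (j - 1) (by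
      push_cast
      have : |j| ≤ |j - 1| + 1 := by
        have := abs_sub_abs_le_abs_sub j (j - 1)
        simp at this
        omega
      omega), ih2 (j + 1) (by
      push_cast
      have : |j| ≤ |j + 1| + 1 := by
        have := abs_sub_abs_le_abs_sub j (j + 1)
        simp at this
        omega
      omega)]
    simp

end scalar

variable {H : Type*} [NormedAddCommGroup H] [InnerProductSpace ℂ H] [CompleteSpace H]

theorem exists_hop {I : Type*} (e : HilbertBasis I ℂ H) (σ : Equiv.Perm I) (g : I → ℂ)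
    (hg : ∀ p, g p = 1 ∨ g p = -1) :
    ∃ X : H →L[ℂ] H, (∀ x y, ⟪X x, y⟫_ℂ = ⟪x, X y⟫_ℂ) ∧ ‖X‖ ≤ 2 ∧
      ∀ p, X (e p) = g p • e (σ p) + g (σ.symm p) • e (σ.symm p) := by
  classical
  have hgc : ∀ p, (starRingEnd ℂ) (g p) * g p = 1 := by
    intro p; rcases hg p with h | h <;> simp [h]
  have hgg : ∀ p, g p * g p = 1 := by
    intro p; rcases hg p with h | h <;> simp [h]
  have hv : Orthonormal ℂ (fun i => g i • e (σ i)) := by
    rw [orthonormal_iff_ite]
    intro i j
    rw [inner_smul_left, inner_smul_right, orthonormal_iff_ite.1 e.orthonormal (σ i) (σ j)]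
    by_cases hij : i = j
    · subst hij; simp [hgc]
    · have : σ i ≠ σ j := fun h => hij (σ.injective h)
      simp [hij, this]
  have hsp : ⊤ ≤ (Submodule.span ℂ (Set.range fun i => g i • e (σ i))).topologicalClosure := by
    rw [← e.dense_span]
    refine Submodule.topologicalClosure_mono ?_
    rw [Submodule.span_le]
    rintro _ ⟨j, rfl⟩
    have : e j = g (σ.symm j) • (g (σ.symm j) • e (σ (σ.symm j))) := by
      rw [smul_smul, hgg, one_smul, Equiv.apply_symm_apply]
    rw [this]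
    exact Submodule.smul_mem _ _ (Submodule.subset_span ⟨σ.symm j, rfl⟩)
  set e' := HilbertBasis.mk hv hsp with he'
  set U : H ≃ₗᵢ[ℂ] H := e.repr.trans e'.repr.symm with hU
  have hUe : ∀ i, U (e i) = g i • e (σ i) := by
    intro i
    have h1 : U (e i) = e'.repr.symm (e.repr (e i)) := rfl
    rw [h1, HilbertBasis.repr_self, HilbertBasis.repr_symm_single, he', HilbertBasis.coe_mk]
  have hUs : ∀ i, U.symm (e i) = g (σ.symm i) • e (σ.symm i) := by
    intro i
    rw [LinearIsometryEquiv.symm_apply_eq, map_smul, hUe, smul_smul, hgg, one_smul,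
      Equiv.apply_symm_apply]
  refine ⟨(U.toContinuousLinearEquiv : H →L[ℂ] H) +
    (U.symm.toContinuousLinearEquiv : H →L[ℂ] H), ?_, ?_, ?_⟩
  · intro x y
    change ⟪U x + U.symm x, y⟫_ℂ = ⟪x, U y + U.symm y⟫_ℂ
    rw [inner_add_left, inner_add_right, LinearIsometryEquiv.inner_map_eq_flip,
      LinearIsometryEquiv.inner_map_eq_flip, LinearIsometryEquiv.symm_symm]
    ring
  · refine ContinuousLinearMap.opNorm_le_bound _ (by norm_num) fun x => ?_
    change ‖U x + U.symm x‖ ≤ 2 * ‖x‖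
    refine (norm_add_le _ _).trans ?_
    rw [LinearIsometryEquiv.norm_map, LinearIsometryEquiv.norm_map]
    linarith
  · intro p
    change U (e p) + U.symm (e p) = _
    rw [hUe, hUs]

/-- `y` has profile `f` along the line through `p` -/
def Prof {I : Type*} (e : HilbertBasis I ℂ H) (x z : I → ℤ) (w : I → ℂ) (p : I) (f : ℤ → ℝ)
    (y : H) : Prop :=
  ∀ q, ⟪e q, y⟫_ℂ = if z q = z p then w q * w p * (f (x q - x p) : ℝ) else 0

section profile

variable {I : Type*} (e : HilbertBasis I ℂ H) (x z : I → ℤ) (w : I → ℂ)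
  (hxz : ∀ p q, x p = x q → z p = z q → p = q) (σ : Equiv.Perm I)
  (hσx : ∀ q, x (σ q) = x q + 1) (hσz : ∀ q, z (σ q) = z q)
  (hw : ∀ q, w q = 1 ∨ w q = -1)

include hxz hw in
theorem prof_basis (p : I) : Prof e x z w p del0 (e p) := by
  classical
  intro q
  rw [orthonormal_iff_ite.1 e.orthonormal q p]
  have hww : w p * w p = 1 := by rcases hw p with h | h <;> simp [h]
  by_cases h : q = p
  · subst h
    simp [hww, del0]
  · by_cases h1 : z q = z p
    · have h2 : x q ≠ x p := fun h2 => h (hxz q p h2 h1)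
      have h3 : x q - x p ≠ 0 := sub_ne_zero.2 h2
      simp [h, h1, del0, h3]
    · simp [h, h1]

theorem prof_sub {p : I} {f g : ℤ → ℝ} {y y' : H} (h : Prof e x z w p f y)
    (h' : Prof e x z w p g y') : Prof e x z w p (f - g) (y - y') := by
  intro q
  rw [inner_sub_right, h q, h' q]
  by_cases h1 : z q = z p
  · simp [h1]; ring
  · simp [h1]

theorem prof_smul {p : I} {f : ℤ → ℝ} {y : H} (c : ℝ) (h : Prof e x z w p f y) :
    Prof e x z w p (c • f) ((c : ℂ) • y) := by
  intro q
  rw [inner_smul_right, h q]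
  by_cases h1 : z q = z p
  · simp [h1]; ring
  · simp [h1]

include hσx hσz hw in
theorem prof_hop {X : H →L[ℂ] H} (hX : ∀ x y, ⟪X x, y⟫_ℂ = ⟪x, X y⟫_ℂ)
    (hXe : ∀ p, X (e p) = (w p * w (σ p)) • e (σ p)
      + (w (σ.symm p) * w (σ (σ.symm p))) • e (σ.symm p))
    {p : I} {f : ℤ → ℝ} {y : H} (h : Prof e x z w p f y) :
    Prof e x z w p (Lop f) (X y) := by
  intro q
  have hc : ∀ a b : I, (starRingEnd ℂ) (w a * w b) = w a * w b := by
    intro a b
    rcases hw a with h | h <;> rcases hw b with h' | h' <;> simp [h, h']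
  have hww : ∀ q, w q * w q = 1 := by
    intro q; rcases hw q with h | h <;> simp [h]
  have hx2 : x (σ.symm q) = x q - 1 := by
    have := hσx (σ.symm q)
    rw [Equiv.apply_symm_apply] at this
    omega
  have hz2 : z (σ.symm q) = z q := by
    have := hσz (σ.symm q)
    rw [Equiv.apply_symm_apply] at this
    exact this.symm
  rw [← hX, hXe, inner_add_left, inner_smul_left, inner_smul_left, hc, hc, h, h, hσz, hz2, hσx, hx2,
    Equiv.apply_symm_apply]
  by_cases h1 : z q = z p
  · simp only [h1, if_true]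
    rw [Lop_apply, show x q + 1 - x p = x q - x p + 1 by ring,
      show x q - 1 - x p = x q - x p - 1 by ring]
    push_cast
    have e1 : w q * w (σ q) * (w (σ q) * w p * (f (x q - x p + 1) : ℂ))
        = (w (σ q) * w (σ q)) * (w q * w p * (f (x q - x p + 1) : ℂ)) := by ring
    have e2 : w (σ.symm q) * w q * (w (σ.symm q) * w p * (f (x q - x p - 1) : ℂ))
        = (w (σ.symm q) * w (σ.symm q)) * (w q * w p * (f (x q - x p - 1) : ℂ)) := by ring
    rw [e1, e2, hww, hww]
    ring
  · simp [h1]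

include hxz hσx hσz hw in
theorem prof_cq {X : H →L[ℂ] H} (hX : ∀ x y, ⟪X x, y⟫_ℂ = ⟪x, X y⟫_ℂ)
    (hXe : ∀ p, X (e p) = (w p * w (σ p)) • e (σ p)
      + (w (σ.symm p) * w (σ (σ.symm p))) • e (σ.symm p)) (κ : ℝ) (p : I) (m : ℕ) :
    Prof e x z w p (tt κ m) (cq ((κ : ℂ) • X) m (e p)) := by
  have hstep : ∀ {f : ℤ → ℝ} {y : H}, Prof e x z w p f y →
      Prof e x z w p ((κ • Lop) f) (((κ : ℂ) • X) y) := fun h =>
    prof_smul e x z w κ (prof_hop e x z w σ hσx hσz hw hX hXe h)
  induction m using Nat.twoStepInduction with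
  | zero =>
    have h0 : cq ((κ : ℂ) • X) 0 (e p) = ((2 : ℝ) : ℂ) • e p := by
      rw [cq_zero]
      change ((2 : H →L[ℂ] H)) (e p) = _
      rw [← one_add_one_eq_two, _root_.add_apply, one_apply_eq_self]
      push_cast
      rw [two_smul]
    have h1 : tt κ 0 = (2 : ℝ) • del0 := by
      ext j; rw [tt_zero]; rfl
    rw [h0, h1]
    exact prof_smul e x z w 2 (prof_basis e x z w hxz hw p)
  | one => exact hstep (prof_basis e x z w hxz hw p)
  | more m ih1 ih2 => exact prof_sub e x z w (hstep ih2) ih1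

include hxz hσx hσz hw in
theorem prof_sq {X : H →L[ℂ] H} (hX : ∀ x y, ⟪X x, y⟫_ℂ = ⟪x, X y⟫_ℂ)
    (hXe : ∀ p, X (e p) = (w p * w (σ p)) • e (σ p)
      + (w (σ.symm p) * w (σ (σ.symm p))) • e (σ.symm p)) (κ : ℝ) (p : I) (m : ℕ) :
    Prof e x z w p (ss κ m) (sq ((κ : ℂ) • X) m (e p)) := by
  have hstep : ∀ {f : ℤ → ℝ} {y : H}, Prof e x z w p f y →
      Prof e x z w p ((κ • Lop) f) (((κ : ℂ) • X) y) := fun h =>
    prof_smul e x z w κ (prof_hop e x z w σ hσx hσz hw hX hXe h)
  induction m using Nat.twoStepInduction with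
  | zero =>
    intro q
    have h0 : sq ((κ : ℂ) • X) 0 (e p) = 0 := rfl
    rw [h0, inner_zero_right, ss_zero]
    simp
  | one => exact prof_basis e x z w hxz hw p
  | more m ih1 ih2 => exact prof_sub e x z w (hstep ih2) ih1

end profile

end AN81
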