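import Pool.Agent.Helper81.AN.Hop

/-! Dispersion and the lower bound for the commutator on the lattice `ℤ × ℤ`. -/

set_option autoImplicit false
set_option linter.unusedSectionVars false
set_option maxSynthPendingDepth 3

open scoped ENNReal InnerProductSpace Topology
open Filter

namespace AN81

theorem disp_scalar (κ : ℝ) (hκ : 0 < κ) (hb : ∀ m j, |tt κ m j| ≤ 3)
    (hs : ∀ m (F : Finset ℤ), ∑ j ∈ F, ss κ m j ^ 2 ≤ 4) (j : ℤ) :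
    Tendsto (fun m => ss κ m j) atTop (𝓝 0) := by
  have h1 : ∀ i : ℤ, Tendsto (fun m => ss κ m (i - 1) - ss κ m (i + 1)) atTop (𝓝 0) := by
    intro i
    have h2 : Tendsto (fun m : ℕ => (3 * |(i : ℝ)| / κ) / (m : ℝ)) atTop (𝓝 0) :=
      tendsto_const_div_atTop_nhds_zero_nat _
    refine squeeze_zero_norm' ?_ h2
    filter_upwards [eventually_ge_atTop 1] with m hm
    have hmpos : (0 : ℝ) < m := by exact_mod_cast hm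
    have h3 := j_tt κ m i
    have h4 : ss κ m (i - 1) - ss κ m (i + 1) = (i : ℝ) * tt κ m i / (m * κ) := by
      rw [h3]; field_simp
    rw [h4, Real.norm_eq_abs, abs_div, abs_mul, abs_of_pos (mul_pos hmpos hκ), div_div,
      mul_comm κ (m : ℝ)]
    have h5 := hb m i
    have h6 := abs_nonneg (i : ℝ)
    have h7 : |(i : ℝ)| * |tt κ m i| ≤ 3 * |(i : ℝ)| := by nlinarith
    exact div_le_div_of_nonneg_right h7 (mul_pos hmpos hκ).le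
  have h2 : ∀ k : ℕ, Tendsto (fun m => ss κ m j - ss κ m (j + 2 * k)) atTop (𝓝 0) := by
    intro k
    induction k with
    | zero => simp
    | succ k ih =>
      have h3 := ih.add (h1 (j + 2 * k + 1))
      rw [add_zero] at h3
      refine h3.congr fun m => ?_
      rw [show j + 2 * (k : ℤ) + 1 - 1 = j + 2 * k by ring,
        show j + 2 * (k : ℤ) + 1 + 1 = j + 2 * ((k + 1 : ℕ) : ℤ) by push_cast; ring]
      ring
  rw [Metric.tendsto_atTop]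
  intro ε hε
  obtain ⟨n, hn⟩ := exists_nat_gt (16 / ε ^ 2)
  have hn0 : (0 : ℝ) < n := lt_of_le_of_lt (by positivity) hn
  have h3 : Tendsto (fun m => ∑ k ∈ Finset.range n, (ss κ m j - ss κ m (j + 2 * k)) ^ 2) atTop
      (𝓝 0) := by
    have : Tendsto (fun m => ∑ k ∈ Finset.range n, (ss κ m j - ss κ m (j + 2 * k)) ^ 2) atTop
      (𝓝 (∑ k ∈ Finset.range n, (0:ℝ) ^ 2)) := tendsto_finsetSum _ fun k _ => (h2 k).pow 2
    simpa using this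
  have h4 : ∀ᶠ m in atTop, ∑ k ∈ Finset.range n, (ss κ m j - ss κ m (j + 2 * k)) ^ 2
      < n * ε ^ 2 / 4 := h3.eventually_lt_const (by positivity)
  obtain ⟨N, hN⟩ := eventually_atTop.1 h4
  refine ⟨N, fun m hm => ?_⟩
  rw [Real.dist_eq, sub_zero]
  have h5 := hN m hm
  have h6 : ∑ k ∈ Finset.range n, ss κ m (j + 2 * k) ^ 2 ≤ 4 := by
    have h7 := hs m ((Finset.range n).image (fun k : ℕ => j + 2 * (k : ℤ)))
    rwa [Finset.sum_image (fun a _ b _ hab => by simpa using hab)] at h7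
  have h7 : (n : ℝ) * ss κ m j ^ 2 ≤ ∑ k ∈ Finset.range n,
      (2 * ss κ m (j + 2 * k) ^ 2 + 2 * (ss κ m j - ss κ m (j + 2 * k)) ^ 2) := by
    have : (n : ℝ) * ss κ m j ^ 2 = ∑ k ∈ Finset.range n, ss κ m j ^ 2 := by
      rw [Finset.sum_const, Finset.card_range, nsmul_eq_mul]
    rw [this]
    refine Finset.sum_le_sum fun k _ => ?_
    nlinarith [sq_nonneg (ss κ m j - 2 * ss κ m (j + 2 * k))]
  rw [Finset.sum_add_distrib, ← Finset.mul_sum, ← Finset.mul_sum] at h7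
  have h8 : (n : ℝ) * ss κ m j ^ 2 < n * ε ^ 2 := by
    have h9 : 16 < n * ε ^ 2 := by
      rwa [div_lt_iff₀ (by positivity)] at hn
    nlinarith
  have h9 : ss κ m j ^ 2 < ε ^ 2 := lt_of_mul_lt_mul_left h8 hn0.le
  exact abs_lt_of_sq_lt_sq h9 hε.le

variable {H : Type*} [NormedAddCommGroup H] [InnerProductSpace ℂ H] [CompleteSpace H]

/-- shift of the first coordinate -/
def σ1 : Equiv.Perm (ℤ × ℤ) where
  toFun q := (q.1 + 1, q.2)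
  invFun q := (q.1 - 1, q.2)
  left_inv q := by ext <;> simp
  right_inv q := by ext <;> simp

/-- shift of the second coordinate -/
def σ2 : Equiv.Perm (ℤ × ℤ) where
  toFun q := (q.1, q.2 + 1)
  invFun q := (q.1, q.2 - 1)
  left_inv q := by ext <;> simp
  right_inv q := by ext <;> simp

/-- the gauge sign -/
def wt (q : ℤ × ℤ) : ℂ := if 0 ≤ q.1 ∧ 1 ≤ q.2 then -1 else 1

theorem wt_cases (q : ℤ × ℤ) : wt q = 1 ∨ wt q = -1 := by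
  unfold wt; split_ifs <;> simp

theorem matX (e : HilbertBasis (ℤ × ℤ) ℂ H) {X : H →L[ℂ] H}
    (hX : ∀ x y, ⟪X x, y⟫_ℂ = ⟪x, X y⟫_ℂ)
    (hXe : ∀ p, X (e p) = e (σ1 p) + e (σ1.symm p)) (κ : ℝ) (p q : ℤ × ℤ) (m : ℕ) :
    ⟪e q, cq ((κ : ℂ) • X) m (e p)⟫_ℂ = (if q.2 = p.2 then ((tt κ m (q.1 - p.1) : ℝ) : ℂ) else 0)
      ∧ ⟪e q, sq ((κ : ℂ) • X) m (e p)⟫_ℂ
        = (if q.2 = p.2 then ((ss κ m (q.1 - p.1) : ℝ) : ℂ) else 0) := by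
  have h0 : ∀ p q : ℤ × ℤ, p.1 = q.1 → p.2 = q.2 → p = q := fun p q h1 h2 => Prod.ext h1 h2
  have h1 := prof_cq e (fun q => q.1) (fun q => q.2) (fun _ => 1) h0 σ1 (fun q => rfl)
    (fun q => rfl) (fun _ => Or.inl rfl) hX (by simpa using hXe) κ p m q
  have h2 := prof_sq e (fun q => q.1) (fun q => q.2) (fun _ => 1) h0 σ1 (fun q => rfl)
    (fun q => rfl) (fun _ => Or.inl rfl) hX (by simpa using hXe) κ p m q
  simp only [one_mul] at h1 h2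
  exact ⟨h1, h2⟩

theorem matY (e : HilbertBasis (ℤ × ℤ) ℂ H) {Y : H →L[ℂ] H}
    (hY : ∀ x y, ⟪Y x, y⟫_ℂ = ⟪x, Y y⟫_ℂ)
    (hYe : ∀ p, Y (e p) = (wt p * wt (σ2 p)) • e (σ2 p)
      + (wt (σ2.symm p) * wt (σ2 (σ2.symm p))) • e (σ2.symm p))
    (κ : ℝ) (p q : ℤ × ℤ) (m : ℕ) :
    ⟪e q, cq ((κ : ℂ) • Y) m (e p)⟫_ℂ
      = (if q.1 = p.1 then wt q * wt p * ((tt κ m (q.2 - p.2) : ℝ) : ℂ) else 0) := by
  have h0 : ∀ p q : ℤ × ℤ, p.2 = q.2 → p.1 = q.1 → p = q := fun p q h1 h2 => Prod.ext h2 h1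
  exact prof_cq e (fun q => q.2) (fun q => q.1) wt h0 σ2 (fun q => rfl)
    (fun q => rfl) wt_cases hY hYe κ p m q

theorem scaled_symm {X : H →L[ℂ] H} (hX : ∀ x y, ⟪X x, y⟫_ℂ = ⟪x, X y⟫_ℂ) (κ : ℝ) :
    ∀ x y, ⟪((κ : ℂ) • X) x, y⟫_ℂ = ⟪x, ((κ : ℂ) • X) y⟫_ℂ := by
  intro x y
  rw [_root_.smul_apply, _root_.smul_apply, inner_smul_left, inner_smul_right, hX]
  simp

theorem tt_zero_tendsto (e : HilbertBasis (ℤ × ℤ) ℂ H) {X : H →L[ℂ] H}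
    (hX : ∀ x y, ⟪X x, y⟫_ℂ = ⟪x, X y⟫_ℂ)
    (hXe : ∀ p, X (e p) = e (σ1 p) + e (σ1.symm p)) (κ : ℝ) (hκ : 0 < κ)
    (hn : ‖(κ : ℂ) • X‖ ≤ 1) : Tendsto (fun m => tt κ m 0) atTop (𝓝 0) := by
  have hP := scaled_symm hX κ
  have hb : ∀ m j, |tt κ m j| ≤ 3 := by
    intro m j
    have h1 := (matX e hX hXe κ (0, 0) (j, 0) m).1
    simp only [sub_zero, if_true] at h1
    have h2 : ‖⟪e (j, 0), cq ((κ : ℂ) • X) m (e (0, 0))⟫_ℂ‖ ≤ 3 := by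
      refine (norm_inner_le_norm _ _).trans ?_
      have h3 := norm_cq_apply_le _ hP hn (e (0, 0)) m
      rw [e.orthonormal.1] at h3 ⊢
      linarith
    rw [h1, Complex.norm_real, Real.norm_eq_abs] at h2
    exact h2
  have hs : ∀ m (F : Finset ℤ), ∑ j ∈ F, ss κ m j ^ 2 ≤ 4 := by
    intro m F
    have h3 := norm_sq_apply_le _ hP hn (e (0, 0)) m
    rw [e.orthonormal.1] at h3
    have h4 := Orthonormal.sum_inner_products_le (𝕜 := ℂ) (sq ((κ : ℂ) • X) m (e (0, 0)))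
      (s := F.map ⟨fun j : ℤ => ((j, 0) : ℤ × ℤ), fun a b h => by simpa using h⟩) e.orthonormal
    rw [Finset.sum_map] at h4
    have h5 : ∀ j, ‖⟪e (j, 0), sq ((κ : ℂ) • X) m (e (0, 0))⟫_ℂ‖ ^ 2 = ss κ m j ^ 2 := by
      intro j
      have h1 := (matX e hX hXe κ (0, 0) (j, 0) m).2
      simp only [sub_zero, if_true] at h1
      rw [h1, Complex.norm_real, Real.norm_eq_abs, sq_abs]
    have h4' : ∑ j ∈ F, ‖⟪e (j, 0), sq ((κ : ℂ) • X) m (e (0, 0))⟫_ℂ‖ ^ 2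
        ≤ ‖sq ((κ : ℂ) • X) m (e (0, 0))‖ ^ 2 := h4
    rw [Finset.sum_congr rfl fun j _ => h5 j] at h4'
    have h6 : 0 ≤ ‖sq ((κ : ℂ) • X) m (e (0, 0))‖ := norm_nonneg _
    nlinarith
  have h := disp_scalar κ hκ hb hs 0
  rw [← tendsto_add_atTop_iff_nat 1]
  have h2 := ((tendsto_add_atTop_iff_nat 2).2 h).sub h
  rw [sub_zero] at h2
  exact h2.congr fun m => ss_sub_ss κ m 0

theorem dispX (e : HilbertBasis (ℤ × ℤ) ℂ H) {X : H →L[ℂ] H}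
    (hX : ∀ x y, ⟪X x, y⟫_ℂ = ⟪x, X y⟫_ℂ)
    (hXe : ∀ p, X (e p) = e (σ1 p) + e (σ1.symm p)) (κ : ℝ) (hκ : 0 < κ)
    (hn : ‖(κ : ℂ) • X‖ ≤ 1) (p : ℤ × ℤ) :
    Tendsto (fun n => ‖⟪e p, cq ((κ : ℂ) • X) n (e p)⟫_ℂ‖) atTop (𝓝 0) := by
  have h1 := (tt_zero_tendsto e hX hXe κ hκ hn).norm
  rw [norm_zero] at h1
  refine h1.congr fun n => ?_
  rw [(matX e hX hXe κ p p n).1]
  simp

theorem dispY (e : HilbertBasis (ℤ × ℤ) ℂ H) {X : H →L[ℂ] H}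
    (hX : ∀ x y, ⟪X x, y⟫_ℂ = ⟪x, X y⟫_ℂ)
    (hXe : ∀ p, X (e p) = e (σ1 p) + e (σ1.symm p)) (κ : ℝ) (hκ : 0 < κ)
    (hn : ‖(κ : ℂ) • X‖ ≤ 1) {Y : H →L[ℂ] H}
    (hY : ∀ x y, ⟪Y x, y⟫_ℂ = ⟪x, Y y⟫_ℂ)
    (hYe : ∀ p, Y (e p) = (wt p * wt (σ2 p)) • e (σ2 p)
      + (wt (σ2.symm p) * wt (σ2 (σ2.symm p))) • e (σ2.symm p)) (p : ℤ × ℤ) :
    Tendsto (fun n => ‖⟪e p, cq ((κ : ℂ) • Y) n (e p)⟫_ℂ‖) atTop (𝓝 0) := by
  have h1 := (tt_zero_tendsto e hX hXe κ hκ hn).norm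
  rw [norm_zero] at h1
  refine h1.congr fun n => ?_
  rw [matY e hY hYe κ p p n]
  rcases wt_cases p with h | h <;> simp [h]

theorem comm_entry (e : HilbertBasis (ℤ × ℤ) ℂ H) {X : H →L[ℂ] H}
    (hX : ∀ x y, ⟪X x, y⟫_ℂ = ⟪x, X y⟫_ℂ)
    (hXe : ∀ p, X (e p) = e (σ1 p) + e (σ1.symm p)) (κ : ℝ) {Y : H →L[ℂ] H}
    (hY : ∀ x y, ⟪Y x, y⟫_ℂ = ⟪x, Y y⟫_ℂ)
    (hYe : ∀ p, Y (e p) = (wt p * wt (σ2 p)) • e (σ2 p)
      + (wt (σ2.symm p) * wt (σ2 (σ2.symm p))) • e (σ2.symm p)) (p q : ℤ × ℤ) (m : ℕ) :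
    ⟪e q, (cq ((κ : ℂ) • X) m ∘L cq ((κ : ℂ) • Y) m
        - cq ((κ : ℂ) • Y) m ∘L cq ((κ : ℂ) • X) m) (e p)⟫_ℂ
      = ((tt κ m (q.1 - p.1) * tt κ m (q.2 - p.2) : ℝ) : ℂ)
        * (wt (p.1, q.2) * wt p - wt (q.1, p.2) * wt q) := by
  have hP := scaled_symm hX κ
  have hQ := scaled_symm hY κ
  rw [_root_.sub_apply, inner_sub_right, ContinuousLinearMap.comp_apply,
    ContinuousLinearMap.comp_apply, ← cq_symm _ hP m (e q), ← cq_symm _ hQ m (e q)]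
  have h1 : ⟪cq ((κ : ℂ) • X) m (e q), cq ((κ : ℂ) • Y) m (e p)⟫_ℂ
      = ((tt κ m (q.1 - p.1) * tt κ m (q.2 - p.2) : ℝ) : ℂ) * (wt (p.1, q.2) * wt p) := by
    have a1 := e.hasSum_inner_mul_inner (cq ((κ : ℂ) • X) m (e q)) (cq ((κ : ℂ) • Y) m (e p))
    have a2 := hasSum_single (f := fun r => ⟪cq ((κ : ℂ) • X) m (e q), e r⟫_ℂ
      * ⟪e r, cq ((κ : ℂ) • Y) m (e p)⟫_ℂ) (p.1, q.2) (by
        intro r hr
        by_cases h2 : r.2 = q.2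
        · have h1 : r.1 ≠ p.1 := fun h1 => hr (Prod.ext h1 h2)
          rw [matY e hY hYe κ p r m]
          simp [h1]
        · rw [← inner_conj_symm, (matX e hX hXe κ q r m).1]
          simp [h2])
    rw [a1.unique a2, ← inner_conj_symm, (matX e hX hXe κ q _ m).1, matY e hY hYe κ p _ m]
    simp only [if_true]
    rw [show p.1 - q.1 = -(q.1 - p.1) by ring, tt_neg, Complex.conj_ofReal]
    push_cast
    ring
  have h2 : ⟪cq ((κ : ℂ) • Y) m (e q), cq ((κ : ℂ) • X) m (e p)⟫_ℂ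
      = ((tt κ m (q.1 - p.1) * tt κ m (q.2 - p.2) : ℝ) : ℂ) * (wt (q.1, p.2) * wt q) := by
    have a1 := e.hasSum_inner_mul_inner (cq ((κ : ℂ) • Y) m (e q)) (cq ((κ : ℂ) • X) m (e p))
    have a2 := hasSum_single (f := fun r => ⟪cq ((κ : ℂ) • Y) m (e q), e r⟫_ℂ
      * ⟪e r, cq ((κ : ℂ) • X) m (e p)⟫_ℂ) (q.1, p.2) (by
        intro r hr
        by_cases h2 : r.1 = q.1
        · have h1 : r.2 ≠ p.2 := fun h1 => hr (Prod.ext h2 h1)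
          rw [(matX e hX hXe κ p r m).1]
          simp [h1]
        · rw [← inner_conj_symm, matY e hY hYe κ q r m]
          simp [h2])
    rw [a1.unique a2, ← inner_conj_symm, (matX e hX hXe κ p _ m).1, matY e hY hYe κ q _ m]
    simp only [if_true]
    have hc : ∀ a, (starRingEnd ℂ) (wt a) = wt a := by
      intro a; rcases wt_cases a with h | h <;> simp [h]
    rw [show p.2 - q.2 = -(q.2 - p.2) by ring, tt_neg, map_mul, map_mul, Complex.conj_ofReal,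
      hc, hc]
    push_cast
    ring
  rw [h1, h2]
  ring

/-- the weighted sum -/
noncomputable def Th (κ : ℝ) (m : ℕ) : ℝ≥0∞ := ∑' j : ℕ, (j : ℝ≥0∞) * ‖tt κ m j‖ₑ ^ 2

theorem Th_eq (κ : ℝ) (m : ℕ) :
    Th κ m = ∑' s : (Σ j : ℕ, Fin j), ‖tt κ m s.1‖ₑ ^ 2 := by
  rw [ENNReal.tsum_sigma (fun (j : ℕ) (_ : Fin j) => ‖tt κ m j‖ₑ ^ 2)]
  unfold Th
  congr 1
  ext j
  rw [tsum_fintype, Finset.sum_const, Finset.card_univ, Fintype.card_fin, nsmul_eq_mul]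

theorem hs_comm_lower (e : HilbertBasis (ℤ × ℤ) ℂ H) {X : H →L[ℂ] H}
    (hX : ∀ x y, ⟪X x, y⟫_ℂ = ⟪x, X y⟫_ℂ)
    (hXe : ∀ p, X (e p) = e (σ1 p) + e (σ1.symm p)) (κ : ℝ) {Y : H →L[ℂ] H}
    (hY : ∀ x y, ⟪Y x, y⟫_ℂ = ⟪x, Y y⟫_ℂ)
    (hYe : ∀ p, Y (e p) = (wt p * wt (σ2 p)) • e (σ2 p)
      + (wt (σ2.symm p) * wt (σ2 (σ2.symm p))) • e (σ2.symm p)) (m : ℕ) :
    4 * Th κ m ^ 2 ≤ hs e (cq ((κ : ℂ) • X) m ∘L cq ((κ : ℂ) • Y) m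
        - cq ((κ : ℂ) • Y) m ∘L cq ((κ : ℂ) • X) m) := by
  set Z := cq ((κ : ℂ) • X) m ∘L cq ((κ : ℂ) • Y) m
        - cq ((κ : ℂ) • Y) m ∘L cq ((κ : ℂ) • X) m with hZ
  have h1 : hs e Z = ∑' r : (ℤ × ℤ) × (ℤ × ℤ), ‖⟪e r.2, Z (e r.1)⟫_ℂ‖ₑ ^ 2 := by
    rw [ENNReal.tsum_prod (f := fun p q => ‖⟪e q, Z (e p)⟫_ℂ‖ₑ ^ 2)]
    unfold hs
    congr 1
    ext p
    rw [parseval e]
  let φ : (Σ j : ℕ, Fin j) × (Σ j : ℕ, Fin j) → (ℤ × ℤ) × (ℤ × ℤ) := fun s =>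
    ((-1 - (s.1.2 : ℤ), -(s.2.2 : ℤ)), ((s.1.1 : ℤ) - 1 - (s.1.2 : ℤ), (s.2.1 : ℤ) - (s.2.2 : ℤ)))
  have hφ : Function.Injective φ := by
    rintro ⟨⟨j, a⟩, ⟨j', b⟩⟩ ⟨⟨i, c⟩, ⟨i', d⟩⟩ h
    simp only [φ, Prod.mk.injEq] at h
    obtain ⟨⟨h1, h2⟩, h3, h4⟩ := h
    have e1 : j = i := by omega
    have e2 : j' = i' := by omega
    subst e1 e2
    have e3 : a = c := Fin.ext (by omega)
    have e4 : b = d := Fin.ext (by omega)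
    rw [e3, e4]
  rw [h1]
  refine le_trans (le_of_eq ?_) (ENNReal.tsum_comp_le_tsum_of_injective hφ _)
  have h2 : ∀ s : (Σ j : ℕ, Fin j) × (Σ j : ℕ, Fin j),
      ‖⟪e (φ s).2, Z (e (φ s).1)⟫_ℂ‖ₑ ^ 2
        = 4 * (‖tt κ m s.1.1‖ₑ ^ 2 * ‖tt κ m s.2.1‖ₑ ^ 2) := by
    rintro ⟨⟨j, a⟩, ⟨j', b⟩⟩
    have ha := a.2
    have hb := b.2
    have h3 := comm_entry e hX hXe κ hY hYe (φ ⟨⟨j, a⟩, ⟨j', b⟩⟩).1 (φ ⟨⟨j, a⟩, ⟨j', b⟩⟩).2 m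
    rw [← hZ] at h3
    rw [h3]
    simp only [φ]
    have w1 : wt (-1 - (a : ℤ), (j' : ℤ) - (b : ℤ)) = 1 := by
      unfold wt; rw [if_neg]; simp only; omega
    have w2 : wt (-1 - (a : ℤ), -(b : ℤ)) = 1 := by
      unfold wt; rw [if_neg]; simp only; omega
    have w3 : wt ((j : ℤ) - 1 - (a : ℤ), -(b : ℤ)) = 1 := by
      unfold wt; rw [if_neg]; simp only; omega
    have w4 : wt ((j : ℤ) - 1 - (a : ℤ), (j' : ℤ) - (b : ℤ)) = -1 := by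
      unfold wt; rw [if_pos]; simp only; omega
    rw [w1, w2, w3, w4, show (j : ℤ) - 1 - (a : ℤ) - (-1 - (a : ℤ)) = j by ring,
      show (j' : ℤ) - (b : ℤ) - -(b : ℤ) = j' by ring]
    rw [show ((tt κ m j * tt κ m j' : ℝ) : ℂ) * (1 * 1 - 1 * -1)
      = ((2 * (tt κ m j * tt κ m j') : ℝ) : ℂ) by push_cast; ring]
    rw [← ofReal_norm, Complex.norm_real, ofReal_norm, enorm_mul, enorm_mul, mul_pow, mul_pow]
    congr 1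
    rw [Real.enorm_eq_ofReal (by norm_num), ← ENNReal.ofReal_pow (by norm_num)]
    norm_num
  simp only [h2]
  rw [ENNReal.tsum_mul_left, ENNReal.tsum_prod (f := fun s s' : (Σ j : ℕ, Fin j) =>
    ‖tt κ m s.1‖ₑ ^ 2 * ‖tt κ m s'.1‖ₑ ^ 2)]
  simp only [ENNReal.tsum_mul_left, ENNReal.tsum_mul_right]
  rw [← Th_eq, pow_two]

theorem int_sum_le (κ : ℝ) (m : ℕ) :
    ∑' j : ℤ, ‖(j : ℝ) * tt κ m j‖ₑ ^ 2 ≤ 2 * m * Th κ m := by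
  have h1 : ∀ j : ℤ, ‖(j : ℝ) * tt κ m j‖ₑ ^ 2
      ≤ m * ((j.natAbs : ℝ≥0∞) * ‖tt κ m j‖ₑ ^ 2) := by
    intro j
    by_cases hj : (m : ℤ) < |j|
    · rw [tt_support κ m j hj]; simp
    · have h2 : j.natAbs ≤ m := by
        have := Int.abs_eq_natAbs j
        omega
      have h3 : ‖(j : ℝ)‖ₑ = (j.natAbs : ℝ≥0∞) := by
        rw [← ofReal_norm, Real.norm_eq_abs, ← Int.cast_abs, Int.abs_eq_natAbs, Int.cast_natCast,
          ENNReal.ofReal_natCast]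
      rw [enorm_mul, mul_pow, h3, pow_two, mul_assoc]
      gcongr
  calc ∑' j : ℤ, ‖(j : ℝ) * tt κ m j‖ₑ ^ 2
      ≤ ∑' j : ℤ, m * ((j.natAbs : ℝ≥0∞) * ‖tt κ m j‖ₑ ^ 2) := ENNReal.tsum_le_tsum h1
    _ = m * ∑' j : ℤ, ((j.natAbs : ℝ≥0∞) * ‖tt κ m j‖ₑ ^ 2) := ENNReal.tsum_mul_left
    _ ≤ m * (2 * Th κ m) := by
        gcongr
        let φ : ℕ ⊕ ℕ → ℤ := Sum.elim (fun n => (n : ℤ)) (fun n => -(n : ℤ))
        have hφ : Function.Surjective φ := by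
          intro j
          rcases Int.eq_nat_or_neg j with ⟨n, h | h⟩
          · exact ⟨Sum.inl n, h.symm⟩
          · exact ⟨Sum.inr n, h.symm⟩
        refine (ENNReal.tsum_le_tsum_comp_of_surjective hφ _).trans (le_of_eq ?_)
        rw [Summable.tsum_sum ENNReal.summable ENNReal.summable, two_mul]
        simp [φ, Th, tt_neg]
    _ = 2 * m * Th κ m := by ring

theorem sq_norm_le (e : HilbertBasis (ℤ × ℤ) ℂ H) {X : H →L[ℂ] H}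
    (hX : ∀ x y, ⟪X x, y⟫_ℂ = ⟪x, X y⟫_ℂ)
    (hXe : ∀ p, X (e p) = e (σ1 p) + e (σ1.symm p)) (κ : ℝ) (m : ℕ) :
    ‖sq ((κ : ℂ) • X) m (e (1, 0) - e (-1, 0))‖ₑ ^ 2
      = ∑' j : ℤ, ‖ss κ m (j - 1) - ss κ m (j + 1)‖ₑ ^ 2 := by
  rw [← parseval e]
  have h1 : ∀ q : ℤ × ℤ, ‖⟪e q, sq ((κ : ℂ) • X) m (e (1, 0) - e (-1, 0))⟫_ℂ‖ₑ ^ 2
      = if q.2 = 0 then ‖ss κ m (q.1 - 1) - ss κ m (q.1 + 1)‖ₑ ^ 2 else 0 := by
    intro q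
    rw [map_sub, inner_sub_right, (matX e hX hXe κ (1, 0) q m).2, (matX e hX hXe κ (-1, 0) q m).2]
    by_cases h : q.2 = 0
    · simp only [h, if_true, sub_neg_eq_add]
      rw [← Complex.ofReal_sub, ← ofReal_norm, Complex.norm_real, ofReal_norm]
    · simp [h]
  simp only [h1]
  rw [ENNReal.tsum_prod (f := fun a b : ℤ =>
    if b = 0 then ‖ss κ m (a - 1) - ss κ m (a + 1)‖ₑ ^ 2 else 0)]
  congr 1
  ext a
  rw [tsum_ite_eq]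

theorem Th_lower (e : HilbertBasis (ℤ × ℤ) ℂ H) {X : H →L[ℂ] H}
    (hX : ∀ x y, ⟪X x, y⟫_ℂ = ⟪x, X y⟫_ℂ)
    (hXe : ∀ p, X (e p) = e (σ1 p) + e (σ1.symm p)) (κ : ℝ) (hκ : 0 < κ) (m : ℕ) (hm : 0 < m)
    (hbig : 2 / 3 ≤ ‖sq ((κ : ℂ) • X) m (e (1, 0) - e (-1, 0))‖ ^ 2) :
    ENNReal.ofReal (m * κ ^ 2 / 3) ≤ Th κ m := by
  have hmpos : (0 : ℝ) < m := by exact_mod_cast hm
  have h1 := int_sum_le κ m
  have h2 : ∑' j : ℤ, ‖(j : ℝ) * tt κ m j‖ₑ ^ 2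
      = ENNReal.ofReal ((m * κ) ^ 2) * ‖sq ((κ : ℂ) • X) m (e (1, 0) - e (-1, 0))‖ₑ ^ 2 := by
    rw [sq_norm_le e hX hXe, ← ENNReal.tsum_mul_left]
    congr 1
    ext j
    rw [j_tt, enorm_mul, mul_pow, Real.enorm_eq_ofReal (by positivity),
      ← ENNReal.ofReal_pow (by positivity)]
  rw [h2] at h1
  have h3 : ENNReal.ofReal (2 / 3)
      ≤ ‖sq ((κ : ℂ) • X) m (e (1, 0) - e (-1, 0))‖ₑ ^ 2 := by
    rw [← ofReal_norm, ← ENNReal.ofReal_pow (norm_nonneg _)]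
    exact ENNReal.ofReal_le_ofReal hbig
  have h4 : ENNReal.ofReal (2 * m) * ENNReal.ofReal (m * κ ^ 2 / 3)
      ≤ ENNReal.ofReal (2 * m) * Th κ m := by
    calc ENNReal.ofReal (2 * m) * ENNReal.ofReal (m * κ ^ 2 / 3)
        = ENNReal.ofReal ((m * κ) ^ 2) * ENNReal.ofReal (2 / 3) := by
          rw [← ENNReal.ofReal_mul (by positivity), ← ENNReal.ofReal_mul (by positivity)]
          congr 1
          ring
      _ ≤ ENNReal.ofReal ((m * κ) ^ 2)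
          * ‖sq ((κ : ℂ) • X) m (e (1, 0) - e (-1, 0))‖ₑ ^ 2 := by gcongr
      _ ≤ 2 * m * Th κ m := h1
      _ = ENNReal.ofReal (2 * m) * Th κ m := by
          rw [ENNReal.ofReal_mul (by norm_num), ENNReal.ofReal_natCast, ENNReal.ofReal_ofNat]
  have h5 : ENNReal.ofReal (2 * m) ≠ 0 := by
    rw [Ne, ENNReal.ofReal_eq_zero, not_le]
    positivity
  exact (ENNReal.mul_le_mul_iff_right h5 ENNReal.ofReal_ne_top).1 h4

/-- the commutator is not small -/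
theorem comm_large (e : HilbertBasis (ℤ × ℤ) ℂ H) {X : H →L[ℂ] H}
    (hX : ∀ x y, ⟪X x, y⟫_ℂ = ⟪x, X y⟫_ℂ)
    (hXe : ∀ p, X (e p) = e (σ1 p) + e (σ1.symm p)) (κ : ℝ) (hκ : 0 < κ)
    (hn : ‖(κ : ℂ) • X‖ ≤ 1) {Y : H →L[ℂ] H}
    (hY : ∀ x y, ⟪Y x, y⟫_ℂ = ⟪x, Y y⟫_ℂ)
    (hYe : ∀ p, Y (e p) = (wt p * wt (σ2 p)) • e (σ2 p)
      + (wt (σ2.symm p) * wt (σ2 (σ2.symm p))) • e (σ2.symm p)) (N : ℕ) :
    ∃ m, N ≤ m ∧ 0 < m ∧ ENNReal.ofReal (4 * κ ^ 4 / 9 * (m : ℝ) ^ 2)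
      ≤ hs e (cq ((κ : ℂ) • X) m ∘L cq ((κ : ℂ) • Y) m
        - cq ((κ : ℂ) • Y) m ∘L cq ((κ : ℂ) • X) m) := by
  have hP := scaled_symm hX κ
  have hv : ‖e (1, 0) - e (-1, 0)‖ ^ 2 = 2 := by
    have h1 : ⟪e ((1, 0) : ℤ × ℤ), e (-1, 0)⟫_ℂ = 0 := e.orthonormal.2 (by simp)
    have h2 := norm_sub_sq (𝕜 := ℂ) (e ((1, 0) : ℤ × ℤ)) (e (-1, 0))
    rw [h1, e.orthonormal.1, e.orthonormal.1] at h2
    rw [h2]
    norm_num
  have h1 := sq_lower _ hP hn (e (1, 0) - e (-1, 0)) (N + 1)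
  rw [hv] at h1
  have h2 : ∃ m, N ≤ m ∧ 0 < m ∧
      2 / 3 ≤ ‖sq ((κ : ℂ) • X) m (e (1, 0) - e (-1, 0))‖ ^ 2 := by
    by_cases h : 2 / 3 ≤ ‖sq ((κ : ℂ) • X) (N + 1) (e (1, 0) - e (-1, 0))‖ ^ 2
    · exact ⟨N + 1, by omega, by omega, h⟩
    · exact ⟨N + 1 + 1, by omega, by omega, by linarith⟩
  obtain ⟨m, hm1, hm2, hm3⟩ := h2
  refine ⟨m, hm1, hm2, le_trans ?_ (hs_comm_lower e hX hXe κ hY hYe m)⟩
  have h3 := Th_lower e hX hXe κ hκ m hm2 hm3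
  calc ENNReal.ofReal (4 * κ ^ 4 / 9 * (m : ℝ) ^ 2)
      = 4 * (ENNReal.ofReal (m * κ ^ 2 / 3)) ^ 2 := by
        rw [← ENNReal.ofReal_pow (by positivity), ← ENNReal.ofReal_ofNat,
          ← ENNReal.ofReal_mul (by norm_num)]
        congr 1
        ring
    _ ≤ 4 * Th κ m ^ 2 := by gcongr

end AN81
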