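import Pool.Agent.Helper81.AN.Energy

/-! The `o(m)` lemma: Hilbert-Schmidt norms of commutators of `cq` of compressions of commuting
operators are `o(m)` under dispersion. -/

set_option autoImplicit false
set_option linter.unusedSectionVars false
set_option maxSynthPendingDepth 3

open scoped ENNReal InnerProductSpace Topology
open Filter

namespace AN81

variable {H K : Type*} [NormedAddCommGroup H] [InnerProductSpace ℂ H] [CompleteSpace H]
  [NormedAddCommGroup K] [InnerProductSpace ℂ K] [CompleteSpace K]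

/-- rank one operator -/
noncomputable def rk (x : K) (u : H) : H →L[ℂ] K := (innerSL ℂ u).smulRight x

theorem rk_apply (x : K) (u v : H) : rk x u v = ⟪u, v⟫_ℂ • x := by
  simp [rk]

theorem hs_rk_sum {ι α : Type*} (e : HilbertBasis ι ℂ H) (s : Finset α) (x : α → K) (u : α → H) :
    hs e (∑ k ∈ s, rk (x k) (u k))
      ≤ ENNReal.ofReal (∑ k ∈ s, ∑ l ∈ s, ‖x k‖ * ‖x l‖ * ‖⟪u k, u l⟫_ℂ‖) := by
  set Z : H →L[ℂ] K := ∑ k ∈ s, rk (x k) (u k) with hZ
  have h0 : ∀ v, Z v = ∑ k ∈ s, ⟪u k, v⟫_ℂ • x k := by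
    intro v
    rw [hZ, _root_.sum_apply]
    simp only [rk_apply]
  have h1 : ∀ i, ((‖Z (e i)‖ ^ 2 : ℝ) : ℂ)
      = ∑ k ∈ s, ∑ l ∈ s, ⟪x k, x l⟫_ℂ * (⟪u l, e i⟫_ℂ * ⟪e i, u k⟫_ℂ) := by
    intro i
    have h2 : ((‖Z (e i)‖ ^ 2 : ℝ) : ℂ) = ⟪Z (e i), Z (e i)⟫_ℂ := by
      rw [inner_self_eq_norm_sq_to_K]; simp
    rw [h2, h0, sum_inner]
    refine Finset.sum_congr rfl fun k _ => ?_
    rw [inner_sum]
    refine Finset.sum_congr rfl fun l _ => ?_
    rw [inner_smul_left, inner_smul_right, inner_conj_symm]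
    ring
  have h2 : HasSum (fun i => ((‖Z (e i)‖ ^ 2 : ℝ) : ℂ))
      (∑ k ∈ s, ∑ l ∈ s, ⟪x k, x l⟫_ℂ * ⟪u l, u k⟫_ℂ) := by
    simp only [h1]
    exact hasSum_sum fun k _ => hasSum_sum fun l _ =>
      (e.hasSum_inner_mul_inner (u l) (u k)).mul_left _
  have h3 : HasSum (fun i => ‖Z (e i)‖ ^ 2)
      (∑ k ∈ s, ∑ l ∈ s, ⟪x k, x l⟫_ℂ * ⟪u l, u k⟫_ℂ).re := by
    have := Complex.hasSum_re h2
    simpa only [Complex.ofReal_re] using this
  have h4 : hs e Z = ENNReal.ofReal ((∑ k ∈ s, ∑ l ∈ s, ⟪x k, x l⟫_ℂ * ⟪u l, u k⟫_ℂ).re) := by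
    unfold hs
    rw [← h3.tsum_eq, ENNReal.ofReal_tsum_of_nonneg (fun _ => by positivity) h3.summable]
    congr 1
    ext i
    rw [ENNReal.ofReal_pow (norm_nonneg _), ofReal_norm]
  rw [h4]
  refine ENNReal.ofReal_le_ofReal ?_
  refine (Complex.re_le_norm _).trans ((norm_sum_le _ _).trans ?_)
  refine Finset.sum_le_sum fun k _ => (norm_sum_le _ _).trans ?_
  refine Finset.sum_le_sum fun l _ => ?_
  rw [norm_mul, norm_inner_symm (u l) (u k)]
  gcongr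
  exact norm_inner_le_norm _ _

/-- `dq 0 = 1`, `dq k = cq k` -/
def dq {R : Type*} [Ring R] (P : R) : ℕ → R
  | 0 => 1
  | (n + 1) => cq P (n + 1)

theorem cq_symm (P : H →L[ℂ] H) (hP : ∀ x y, ⟪P x, y⟫_ℂ = ⟪x, P y⟫_ℂ) (n : ℕ) (x y : H) :
    ⟪cq P n x, y⟫_ℂ = ⟪x, cq P n y⟫_ℂ := by
  induction n using Nat.twoStepInduction generalizing x y with
  | zero =>
    have h0 : ∀ v, cq P 0 v = (2 : ℂ) • v := by
      intro v
      rw [cq_zero]
      change ((2 : H →L[ℂ] H)) v = _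
      rw [← one_add_one_eq_two, _root_.add_apply, one_apply_eq_self, two_smul]
    rw [h0, h0, inner_smul_left, inner_smul_right, map_ofNat]
  | one => exact hP x y
  | more n ih1 ih2 =>
    have e1 : ∀ v, cq P (n + 2) v = P (cq P (n + 1) v) - cq P n v := fun v => rfl
    have e2 : ∀ v, cq P (n + 1) (P v) = P (cq P (n + 1) v) := by
      intro v
      have := (commute_cq P (n + 1)).eq
      have h := congrArg (fun A : H →L[ℂ] H => A v) this
      exact h.symm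
    rw [e1, e1, inner_sub_left, inner_sub_right, ih1, hP, ih2, e2]

theorem dq_symm (P : H →L[ℂ] H) (hP : ∀ x y, ⟪P x, y⟫_ℂ = ⟪x, P y⟫_ℂ) (n : ℕ) (x y : H) :
    ⟪dq P n x, y⟫_ℂ = ⟪x, dq P n y⟫_ℂ := by
  cases n with
  | zero => rfl
  | succ n => exact cq_symm P hP (n + 1) x y

theorem gram_le (P : H →L[ℂ] H) (hP : ∀ x y, ⟪P x, y⟫_ℂ = ⟪x, P y⟫_ℂ) (v : H) (k l : ℕ)
    (hkl : l ≤ k) :
    ‖⟪dq P k v, dq P l v⟫_ℂ‖ ≤ ‖⟪v, cq P (k + l) v⟫_ℂ‖ + ‖⟪v, cq P (k - l) v⟫_ℂ‖ := by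
  rw [dq_symm P hP]
  cases l with
  | zero =>
    cases k with
    | zero =>
      have h0 : cq P 0 v = (2 : ℂ) • v := by
        rw [cq_zero]
        change ((2 : H →L[ℂ] H)) v = _
        rw [← one_add_one_eq_two, _root_.add_apply, one_apply_eq_self, two_smul]
      have h1 : dq P 0 (dq P 0 v) = v := rfl
      simp only [Nat.add_zero, Nat.sub_zero]
      rw [h0, h1, inner_smul_right, norm_mul]
      have : (0:ℝ) ≤ ‖⟪v, v⟫_ℂ‖ := norm_nonneg _
      simp only [Complex.norm_ofNat]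
      linarith
    | succ k =>
      have h1 : dq P (k + 1) (dq P 0 v) = cq P (k + 1) v := rfl
      rw [h1]
      simp only [Nat.add_zero, Nat.sub_zero]
      linarith [norm_nonneg ⟪v, cq P (k + 1) v⟫_ℂ]
  | succ l =>
    obtain ⟨n, rfl⟩ := Nat.exists_eq_add_of_le hkl
    have h1 : dq P (l + 1 + n) (dq P (l + 1) v)
        = (cq P (n + (l + 1)) * cq P (l + 1)) v := by
      rw [show l + 1 + n = n + l + 1 by ring]
      rfl
    rw [h1, cq_mul_cq, _root_.add_apply, inner_add_right,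
      show l + 1 + n + (l + 1) = n + 2 * (l + 1) by ring, show l + 1 + n - (l + 1) = n by omega]
    exact norm_add_le _ _

theorem gram_le' (P : H →L[ℂ] H) (hP : ∀ x y, ⟪P x, y⟫_ℂ = ⟪x, P y⟫_ℂ) (v : H) (k l : ℕ) :
    ‖⟪dq P k v, dq P l v⟫_ℂ‖
      ≤ ‖⟪v, cq P (k + l) v⟫_ℂ‖ + ‖⟪v, cq P (k - l + (l - k)) v⟫_ℂ‖ := by
  rcases le_total l k with h | h
  · rw [show l - k = 0 by omega]
    exact gram_le P hP v k l h
  · rw [show k - l = 0 by omega, norm_inner_symm, add_comm k l, Nat.zero_add]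
    exact gram_le P hP v l k h

theorem sum_dist_le (g : ℕ → ℝ) (hg : ∀ n, 0 ≤ g n) (m k : ℕ) (hk : k < m) :
    ∑ l ∈ Finset.range m, (g (k + l) + g (k - l + (l - k)))
      ≤ ∑ n ∈ Finset.range (2 * m), g n + 2 * ∑ n ∈ Finset.range m, g n := by
  rw [Finset.sum_add_distrib]
  have h1 : ∑ l ∈ Finset.range m, g (k + l) ≤ ∑ n ∈ Finset.range (2 * m), g n := by
    rw [← Finset.sum_image (f := g) (g := fun l => k + l)
      (fun a _ b _ hab => by simpa using hab)]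
    refine Finset.sum_le_sum_of_subset_of_nonneg ?_ fun _ _ _ => hg _
    intro n hn
    simp only [Finset.mem_image, Finset.mem_range] at hn ⊢
    obtain ⟨a, ha, rfl⟩ := hn
    omega
  have h2 : ∑ l ∈ Finset.range m, g (k - l + (l - k)) ≤ 2 * ∑ n ∈ Finset.range m, g n := by
    rw [← Finset.sum_filter_add_sum_filter_not (Finset.range m) (fun l => l ≤ k), two_mul]
    refine add_le_add ?_ ?_
    · have e1 : ∑ l ∈ (Finset.range m).filter (fun l => l ≤ k), g (k - l + (l - k))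
          = ∑ n ∈ ((Finset.range m).filter (fun l => l ≤ k)).image (fun l => k - l), g n := by
        rw [Finset.sum_image]
        · refine Finset.sum_congr rfl fun l hl => ?_
          simp only [Finset.mem_filter, Finset.mem_range] at hl
          rw [show l - k = 0 by omega, Nat.add_zero]
        · intro a ha b hb hab
          simp only [Finset.coe_filter, Finset.mem_range, Set.mem_ofPred_eq] at ha hb hab
          omega
      rw [e1]
      refine Finset.sum_le_sum_of_subset_of_nonneg ?_ fun _ _ _ => hg _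
      intro n hn
      simp only [Finset.mem_image, Finset.mem_filter, Finset.mem_range] at hn ⊢
      obtain ⟨a, ha, rfl⟩ := hn
      omega
    · have e1 : ∑ l ∈ (Finset.range m).filter (fun l => ¬ l ≤ k), g (k - l + (l - k))
          = ∑ n ∈ ((Finset.range m).filter (fun l => ¬ l ≤ k)).image (fun l => l - k), g n := by
        rw [Finset.sum_image]
        · refine Finset.sum_congr rfl fun l hl => ?_
          simp only [Finset.mem_filter, Finset.mem_range] at hl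
          rw [show k - l = 0 by omega, Nat.zero_add]
        · intro a ha b hb hab
          simp only [Finset.coe_filter, Finset.mem_range, Set.mem_ofPred_eq] at ha hb hab
          omega
      rw [e1]
      refine Finset.sum_le_sum_of_subset_of_nonneg ?_ fun _ _ _ => hg _
      intro n hn
      simp only [Finset.mem_image, Finset.mem_filter, Finset.mem_range] at hn ⊢
      obtain ⟨a, ha, rfl⟩ := hn
      omega
  linarith

theorem double_sum_small (g : ℕ → ℝ) (hg : ∀ n, 0 ≤ g n) (ht : Tendsto g atTop (𝓝 0))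
    (ε : ℝ) (hε : 0 < ε) :
    ∀ᶠ m : ℕ in atTop, ∑ k ∈ Finset.range m, ∑ l ∈ Finset.range m,
      (g (k + l) + g (k - l + (l - k))) ≤ ε * (m : ℝ) ^ 2 := by
  have h1 := ht.cesaro
  have h2 : ∀ᶠ m : ℕ in atTop, (m⁻¹ : ℝ) * ∑ i ∈ Finset.range m, g i < ε / 4 :=
    h1.eventually_lt_const (by positivity)
  obtain ⟨m0, hm0⟩ := eventually_atTop.1 h2
  refine eventually_atTop.2 ⟨max m0 1, fun m hm => ?_⟩
  have hm1 : m0 ≤ m := le_trans (le_max_left _ _) hm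
  have hm2 : 1 ≤ m := le_trans (le_max_right _ _) hm
  have hmpos : (0 : ℝ) < m := by exact_mod_cast hm2
  have a1 : ∑ i ∈ Finset.range m, g i ≤ ε / 4 * m := by
    have := (hm0 m hm1).le
    rw [inv_mul_le_iff₀ hmpos] at this
    linarith
  have a2 : ∑ i ∈ Finset.range (2 * m), g i ≤ ε / 4 * (2 * m) := by
    have := (hm0 (2 * m) (by omega)).le
    rw [inv_mul_le_iff₀ (by push_cast; linarith)] at this
    push_cast at this
    linarith
  calc ∑ k ∈ Finset.range m, ∑ l ∈ Finset.range m, (g (k + l) + g (k - l + (l - k)))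
      ≤ ∑ k ∈ Finset.range m, (∑ n ∈ Finset.range (2 * m), g n
          + 2 * ∑ n ∈ Finset.range m, g n) :=
        Finset.sum_le_sum fun k hk => sum_dist_le g hg m k (Finset.mem_range.1 hk)
    _ = m * (∑ n ∈ Finset.range (2 * m), g n + 2 * ∑ n ∈ Finset.range m, g n) := by
        rw [Finset.sum_const, Finset.card_range, nsmul_eq_mul]
    _ ≤ m * (ε / 4 * (2 * m) + 2 * (ε / 4 * m)) := by gcongr
    _ = ε * (m : ℝ) ^ 2 := by ring

theorem rk_small {ι : Type*} (e : HilbertBasis ι ℂ H) (P : H →L[ℂ] H)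
    (hP : ∀ x y, ⟪P x, y⟫_ℂ = ⟪x, P y⟫_ℂ) (x : ℕ → ℕ → K) (M : ℝ) (hx : ∀ m k, ‖x m k‖ ≤ M)
    (v : H) (ht : Tendsto (fun n => ‖⟪v, cq P n v⟫_ℂ‖) atTop (𝓝 0)) (ε : ℝ) (hε : 0 < ε) :
    ∀ᶠ m : ℕ in atTop, hs e (∑ k ∈ Finset.range m, rk (x m k) (dq P k v))
      ≤ ENNReal.ofReal (ε * (m : ℝ) ^ 2) := by
  have hM : 0 ≤ M := (norm_nonneg _).trans (hx 0 0)
  have h := double_sum_small (fun n => ‖⟪v, cq P n v⟫_ℂ‖) (fun n => norm_nonneg _) ht
    (ε / (M ^ 2 + 1)) (by positivity)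
  filter_upwards [h] with m hm
  refine (hs_rk_sum e _ _ _).trans (ENNReal.ofReal_le_ofReal ?_)
  calc ∑ k ∈ Finset.range m, ∑ l ∈ Finset.range m,
        ‖x m k‖ * ‖x m l‖ * ‖⟪dq P k v, dq P l v⟫_ℂ‖
      ≤ ∑ k ∈ Finset.range m, ∑ l ∈ Finset.range m,
        M * M * (‖⟪v, cq P (k + l) v⟫_ℂ‖ + ‖⟪v, cq P (k - l + (l - k)) v⟫_ℂ‖) := by
        refine Finset.sum_le_sum fun k _ => Finset.sum_le_sum fun l _ => ?_
        gcongr
        · exact hx m k
        · exact hx m l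
        · exact gram_le' P hP v k l
    _ = M * M * ∑ k ∈ Finset.range m, ∑ l ∈ Finset.range m,
        (‖⟪v, cq P (k + l) v⟫_ℂ‖ + ‖⟪v, cq P (k - l + (l - k)) v⟫_ℂ‖) := by
        rw [Finset.mul_sum]
        exact Finset.sum_congr rfl fun k _ => by rw [Finset.mul_sum]
    _ ≤ M * M * (ε / (M ^ 2 + 1) * (m : ℝ) ^ 2) := by gcongr
    _ ≤ ε * (m : ℝ) ^ 2 := by
        rw [show M * M * (ε / (M ^ 2 + 1) * (m : ℝ) ^ 2)
          = (M ^ 2 / (M ^ 2 + 1)) * (ε * (m : ℝ) ^ 2) by ring]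
        have h1 : M ^ 2 / (M ^ 2 + 1) ≤ 1 := by
          rw [div_le_one (by positivity)]; linarith
        have h2 : 0 ≤ ε * (m : ℝ) ^ 2 := by positivity
        nlinarith

theorem norm_dq_le (P : H →L[ℂ] H) (hP : ∀ x y, ⟪P x, y⟫_ℂ = ⟪x, P y⟫_ℂ)
    (hn : ‖P‖ ≤ 1) (n : ℕ) : ‖dq P n‖ ≤ 3 := by
  cases n with
  | zero =>
    refine ContinuousLinearMap.opNorm_le_bound _ (by norm_num) fun v => ?_
    change ‖v‖ ≤ 3 * ‖v‖
    linarith [norm_nonneg v]
  | succ n => exact norm_cq_le P hP hn (n + 1)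

/-- Duhamel for the intertwining defect -/
theorem defect_duhamel (P : H →L[ℂ] H) (P' : K →L[ℂ] K) (J : H →L[ℂ] K) (m : ℕ) :
    cq P' m ∘L J - J ∘L cq P m
      = ∑ k ∈ Finset.range m, sq P' (m - k) ∘L ((P' ∘L J - J ∘L P) ∘L dq P k) := by
  have h := duhamel P' (fun k => (P' ∘L J - J ∘L P) ∘L dq P k)
    (fun m => cq P' m ∘L J - J ∘L cq P m) ?_ ?_ ?_ m
  · exact h
  · have h2 : (2 : H →L[ℂ] H) = 1 + 1 := one_add_one_eq_two.symm
    have h2' : (2 : K →L[ℂ] K) = 1 + 1 := one_add_one_eq_two.symm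
    simp only [cq_zero, h2, h2']
    ext v
    simp
  · ext v
    simp [dq]
  · intro m
    have e1 : ∀ v, cq P (m + 2) v = P (cq P (m + 1) v) - cq P m v := fun v => rfl
    have e2 : ∀ v, cq P' (m + 2) v = P' (cq P' (m + 1) v) - cq P' m v := fun v => rfl
    ext v
    simp only [_root_.add_apply, _root_.sub_apply, ContinuousLinearMap.comp_apply, e1, e2, map_sub,
      dq]
    abel

theorem hs_split {ι : Type*} (e : HilbertBasis ι ℂ H) (D : H →L[ℂ] K) (hD : hs e D ≠ ∞)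
    (δ : ℝ≥0∞) (hδ : 0 < δ) :
    ∃ Λ : Finset ι, hs e (D - ∑ p ∈ Λ, rk (D (e p)) (e p)) < δ := by
  classical
  have h := ENNReal.tendsto_tsum_compl_atTop_zero hD
  obtain ⟨Λ, hΛ⟩ := (h.eventually_lt_const hδ).exists
  refine ⟨Λ, lt_of_le_of_lt ?_ hΛ⟩
  unfold hs
  have h1 : ∀ i, ‖(D - ∑ p ∈ Λ, rk (D (e p)) (e p)) (e i)‖ₑ ^ 2
      = Set.indicator {x | x ∉ Λ} (fun i => ‖D (e i)‖ₑ ^ 2) i := by
    intro i
    have h2 : (D - ∑ p ∈ Λ, rk (D (e p)) (e p)) (e i) = if i ∈ Λ then 0 else D (e i) := by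
      rw [_root_.sub_apply, _root_.sum_apply]
      simp only [rk_apply, orthonormal_iff_ite.1 e.orthonormal]
      simp only [ite_smul, one_smul, zero_smul]
      rw [Finset.sum_ite_eq' Λ i]
      by_cases hi : i ∈ Λ <;> simp [hi]
    rw [h2]
    by_cases hi : i ∈ Λ <;> simp [hi]
  simp only [h1]
  rw [← tsum_subtype]
  rfl

/-- the `o(m)` lemma -/
theorem defect_small {ι : Type*} (e : HilbertBasis ι ℂ H) (P : H →L[ℂ] H) (P' : K →L[ℂ] K)
    (J : H →L[ℂ] K) (hP : ∀ x y, ⟪P x, y⟫_ℂ = ⟪x, P y⟫_ℂ) (hn : ‖P‖ ≤ 1)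
    (hP' : ∀ x y, ⟪P' x, y⟫_ℂ = ⟪x, P' y⟫_ℂ) (hn' : ‖P'‖ ≤ 1)
    (hfin : hs e (P' ∘L J - J ∘L P) ≠ ∞)
    (disp : ∀ p, Tendsto (fun n => ‖⟪e p, cq P n (e p)⟫_ℂ‖) atTop (𝓝 0))
    (ε : ℝ) (hε : 0 < ε) :
    ∀ᶠ m : ℕ in atTop, hs e (cq P' m ∘L J - J ∘L cq P m) ≤ ENNReal.ofReal (ε * (m : ℝ) ^ 2) := by
  classical
  set D := P' ∘L J - J ∘L P with hD
  obtain ⟨Λ, hΛ⟩ := hs_split e D hfin (ENNReal.ofReal (ε / 144)) (by positivity)
  set D' := D - ∑ p ∈ Λ, rk (D (e p)) (e p) with hD'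
  have hε1 : 0 < ε / (4 * ((Λ.card : ℝ) + 1) ^ 2) := by positivity
  have hp : ∀ p ∈ Λ, ∀ᶠ m : ℕ in atTop,
      hs e (∑ k ∈ Finset.range m, rk (sq P' (m - k) (D (e p))) (dq P k (e p)))
        ≤ ENNReal.ofReal (ε / (4 * ((Λ.card : ℝ) + 1) ^ 2) * (m : ℝ) ^ 2) := fun p _ =>
    rk_small e P hP (fun m k => sq P' (m - k) (D (e p))) (2 * ‖D (e p)‖)
      (fun m k => norm_sq_apply_le P' hP' hn' _ _) (e p) (disp p) _ hε1
  have hp' : ∀ᶠ m : ℕ in atTop, ∀ p ∈ Λ,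
      hs e (∑ k ∈ Finset.range m, rk (sq P' (m - k) (D (e p))) (dq P k (e p)))
        ≤ ENNReal.ofReal (ε / (4 * ((Λ.card : ℝ) + 1) ^ 2) * (m : ℝ) ^ 2) :=
    (Filter.eventually_all_finset Λ).2 hp
  filter_upwards [hp'] with m hm
  have hdec : cq P' m ∘L J - J ∘L cq P m
      = ∑ k ∈ Finset.range m, sq P' (m - k) ∘L (D' ∘L dq P k)
        + ∑ p ∈ Λ, ∑ k ∈ Finset.range m, rk (sq P' (m - k) (D (e p))) (dq P k (e p)) := by
    rw [defect_duhamel, ← hD, Finset.sum_comm, ← Finset.sum_add_distrib]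
    refine Finset.sum_congr rfl fun k _ => ?_
    ext v
    simp only [_root_.add_apply, ContinuousLinearMap.comp_apply, hD', _root_.sub_apply,
      _root_.sum_apply, rk_apply, map_sub, map_sum, map_smul, dq_symm P hP]
    abel
  rw [hdec]
  refine (hs_add e _ _).trans ?_
  have b1 : hs e (∑ k ∈ Finset.range m, sq P' (m - k) ∘L (D' ∘L dq P k))
      ≤ ENNReal.ofReal (36 * (ε / 144) * (m : ℝ) ^ 2) := by
    refine (hs_finset_sum e _ _).trans ?_
    rw [Finset.card_range]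
    have c1 : ∀ k, hs e (sq P' (m - k) ∘L (D' ∘L dq P k)) ≤ ENNReal.ofReal (36 * (ε / 144)) := by
      intro k
      refine (hs_comp_left e _ _).trans ?_
      calc ‖sq P' (m - k)‖ₑ ^ 2 * hs e (D' ∘L dq P k)
          ≤ (ENNReal.ofReal 2) ^ 2 * ((ENNReal.ofReal 3) ^ 2 * hs e D') := by
            gcongr
            · rw [← ofReal_norm]
              exact ENNReal.ofReal_le_ofReal (norm_sq_le P' hP' hn' _)
            · refine (hs_comp_right e e D' _).trans ?_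
              gcongr
              rw [← ofReal_norm]
              exact ENNReal.ofReal_le_ofReal (norm_dq_le P hP hn _)
        _ ≤ (ENNReal.ofReal 2) ^ 2 * ((ENNReal.ofReal 3) ^ 2 * ENNReal.ofReal (ε / 144)) := by
            gcongr
        _ = ENNReal.ofReal (36 * (ε / 144)) := by
            rw [← ENNReal.ofReal_pow (by norm_num), ← ENNReal.ofReal_pow (by norm_num),
              ← ENNReal.ofReal_mul (by positivity), ← ENNReal.ofReal_mul (by positivity)]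
            congr 1
            ring
    calc (m : ℝ≥0∞) * ∑ k ∈ Finset.range m, hs e (sq P' (m - k) ∘L (D' ∘L dq P k))
        ≤ (m : ℝ≥0∞) * ∑ k ∈ Finset.range m, ENNReal.ofReal (36 * (ε / 144)) := by
          gcongr with k hk
          exact c1 k
      _ = ENNReal.ofReal (36 * (ε / 144) * (m : ℝ) ^ 2) := by
          rw [Finset.sum_const, Finset.card_range, nsmul_eq_mul, ← ENNReal.ofReal_natCast,
            ← ENNReal.ofReal_mul (by positivity), ← ENNReal.ofReal_mul (by positivity)]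
          congr 1
          ring
  have b2 : hs e (∑ p ∈ Λ, ∑ k ∈ Finset.range m, rk (sq P' (m - k) (D (e p))) (dq P k (e p)))
      ≤ ENNReal.ofReal (ε / 4 * (m : ℝ) ^ 2) := by
    refine (hs_finset_sum e _ _).trans ?_
    calc (Λ.card : ℝ≥0∞) * ∑ p ∈ Λ,
          hs e (∑ k ∈ Finset.range m, rk (sq P' (m - k) (D (e p))) (dq P k (e p)))
        ≤ (Λ.card : ℝ≥0∞) * ∑ p ∈ Λ,
          ENNReal.ofReal (ε / (4 * ((Λ.card : ℝ) + 1) ^ 2) * (m : ℝ) ^ 2) := by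
          gcongr with p hp
          exact hm p hp
      _ = ENNReal.ofReal ((Λ.card : ℝ) * ((Λ.card : ℝ) *
            (ε / (4 * ((Λ.card : ℝ) + 1) ^ 2) * (m : ℝ) ^ 2))) := by
          rw [Finset.sum_const, nsmul_eq_mul, ← ENNReal.ofReal_natCast,
            ← ENNReal.ofReal_mul (by positivity), ← ENNReal.ofReal_mul (by positivity)]
      _ ≤ ENNReal.ofReal (ε / 4 * (m : ℝ) ^ 2) := by
          refine ENNReal.ofReal_le_ofReal ?_
          have hc : (0:ℝ) ≤ Λ.card := by positivity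
          have e1 : (Λ.card : ℝ) * ((Λ.card : ℝ) *
            (ε / (4 * ((Λ.card : ℝ) + 1) ^ 2) * (m : ℝ) ^ 2))
            = ((Λ.card : ℝ) ^ 2 / ((Λ.card : ℝ) + 1) ^ 2) * (ε / 4 * (m : ℝ) ^ 2) := by
            field_simp
          rw [e1]
          have e2 : (Λ.card : ℝ) ^ 2 / ((Λ.card : ℝ) + 1) ^ 2 ≤ 1 := by
            rw [div_le_one (by positivity)]
            nlinarith
          have e3 : 0 ≤ ε / 4 * (m : ℝ) ^ 2 := by positivity
          nlinarith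
  calc 2 * hs e (∑ k ∈ Finset.range m, sq P' (m - k) ∘L (D' ∘L dq P k))
        + 2 * hs e (∑ p ∈ Λ, ∑ k ∈ Finset.range m, rk (sq P' (m - k) (D (e p))) (dq P k (e p)))
      ≤ 2 * ENNReal.ofReal (36 * (ε / 144) * (m : ℝ) ^ 2)
        + 2 * ENNReal.ofReal (ε / 4 * (m : ℝ) ^ 2) := by gcongr
    _ = ENNReal.ofReal (ε * (m : ℝ) ^ 2) := by
        rw [← ENNReal.ofReal_ofNat, ← ENNReal.ofReal_mul (by norm_num),
          ← ENNReal.ofReal_mul (by norm_num), ← ENNReal.ofReal_add (by positivity) (by positivity)]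
        congr 1
        ring

/-- commutators of `cq P`, `cq Q` are `o(m)` in Hilbert-Schmidt norm when `P, Q` are
compressions, up to Hilbert-Schmidt defects, of commuting operators. -/
theorem comm_small {ι : Type*} (e : HilbertBasis ι ℂ H) (P Q : H →L[ℂ] H) (P' Q' : K →L[ℂ] K)
    (J : H →L[ℂ] K) (hJ : ∀ x, ‖J x‖ = ‖x‖)
    (hP : ∀ x y, ⟪P x, y⟫_ℂ = ⟪x, P y⟫_ℂ) (hn : ‖P‖ ≤ 1)
    (hQ : ∀ x y, ⟪Q x, y⟫_ℂ = ⟪x, Q y⟫_ℂ) (hnQ : ‖Q‖ ≤ 1)
    (hP' : ∀ x y, ⟪P' x, y⟫_ℂ = ⟪x, P' y⟫_ℂ) (hn' : ‖P'‖ ≤ 1)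
    (hQ' : ∀ x y, ⟪Q' x, y⟫_ℂ = ⟪x, Q' y⟫_ℂ) (hnQ' : ‖Q'‖ ≤ 1)
    (hcomm : Commute P' Q')
    (hfinP : hs e (P' ∘L J - J ∘L P) ≠ ∞) (hfinQ : hs e (Q' ∘L J - J ∘L Q) ≠ ∞)
    (dispP : ∀ p, Tendsto (fun n => ‖⟪e p, cq P n (e p)⟫_ℂ‖) atTop (𝓝 0))
    (dispQ : ∀ p, Tendsto (fun n => ‖⟪e p, cq Q n (e p)⟫_ℂ‖) atTop (𝓝 0))
    (ε : ℝ) (hε : 0 < ε) :
    ∀ᶠ m : ℕ in atTop, hs e (cq P m ∘L cq Q m - cq Q m ∘L cq P m)
      ≤ ENNReal.ofReal (ε * (m : ℝ) ^ 2) := by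
  filter_upwards [defect_small e P P' J hP hn hP' hn' hfinP dispP (ε / 144) (by positivity),
    defect_small e Q Q' J hQ hnQ hQ' hnQ' hfinQ dispQ (ε / 144) (by positivity)] with m h1 h2
  set F := cq P m
  set G := cq Q m
  set F' := cq P' m
  set G' := cq Q' m
  have hc : F' ∘L G' = G' ∘L F' := (commute_cq_cq hcomm m m).eq
  have hc' : ∀ x, F' (G' x) = G' (F' x) := fun x =>
    congrArg (fun A : K →L[ℂ] K => A x) hc
  have hJs : hs e (F ∘L G - G ∘L F) = hs e (J ∘L (F ∘L G - G ∘L F)) := by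
    unfold hs
    congr 1
    ext i
    rw [ContinuousLinearMap.comp_apply, ← ofReal_norm, ← ofReal_norm, hJ]
  have hid : J ∘L (F ∘L G - G ∘L F)
      = ∑ i : Fin 4, (![(G' ∘L J - J ∘L G) ∘L F, G' ∘L (F' ∘L J - J ∘L F),
        (-(F' ∘L J - J ∘L F)) ∘L G, (-F') ∘L (G' ∘L J - J ∘L G)] : Fin 4 → H →L[ℂ] K) i := by
    ext v
    simp [Fin.sum_univ_four, hc']
    abel
  have nF : ‖F‖ₑ ≤ ENNReal.ofReal 3 := by
    rw [← ofReal_norm]; exact ENNReal.ofReal_le_ofReal (norm_cq_le P hP hn m)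
  have nG : ‖G‖ₑ ≤ ENNReal.ofReal 3 := by
    rw [← ofReal_norm]; exact ENNReal.ofReal_le_ofReal (norm_cq_le Q hQ hnQ m)
  have nF' : ‖F'‖ₑ ≤ ENNReal.ofReal 3 := by
    rw [← ofReal_norm]; exact ENNReal.ofReal_le_ofReal (norm_cq_le P' hP' hn' m)
  have nG' : ‖G'‖ₑ ≤ ENNReal.ofReal 3 := by
    rw [← ofReal_norm]; exact ENNReal.ofReal_le_ofReal (norm_cq_le Q' hQ' hnQ' m)
  have hneg : ∀ Z : H →L[ℂ] K, hs e (-Z) = hs e Z := by
    intro Z; unfold hs; simp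
  rw [hJs, hid]
  refine (hs_finset_sum e _ _).trans ?_
  simp only [Finset.card_univ, Fintype.card_fin, Fin.sum_univ_four, Matrix.cons_val]
  set a := ENNReal.ofReal (ε / 144 * (m : ℝ) ^ 2) with ha
  have c1 : hs e ((G' ∘L J - J ∘L G) ∘L F) ≤ (ENNReal.ofReal 3) ^ 2 * a := by
    refine (hs_comp_right e e _ _).trans ?_
    gcongr
  have c2 : hs e (G' ∘L (F' ∘L J - J ∘L F)) ≤ (ENNReal.ofReal 3) ^ 2 * a := by
    refine (hs_comp_left e _ _).trans ?_
    gcongr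
  have c3 : hs e ((-(F' ∘L J - J ∘L F)) ∘L G) ≤ (ENNReal.ofReal 3) ^ 2 * a := by
    refine (hs_comp_right e e _ _).trans ?_
    rw [hneg]
    gcongr
  have c4 : hs e ((-F') ∘L (G' ∘L J - J ∘L G)) ≤ (ENNReal.ofReal 3) ^ 2 * a := by
    refine (hs_comp_left e _ _).trans ?_
    rw [enorm_neg]
    gcongr
  calc _ ≤ ((4 : ℕ) : ℝ≥0∞) * ((ENNReal.ofReal 3) ^ 2 * a + (ENNReal.ofReal 3) ^ 2 * a
        + (ENNReal.ofReal 3) ^ 2 * a + (ENNReal.ofReal 3) ^ 2 * a) := by gcongr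
    _ = ENNReal.ofReal (ε * (m : ℝ) ^ 2) := by
        rw [ha, ← ENNReal.ofReal_pow (by norm_num), ← ENNReal.ofReal_mul (by positivity),
          ← ENNReal.ofReal_add (by positivity) (by positivity),
          ← ENNReal.ofReal_add (by positivity) (by positivity),
          ← ENNReal.ofReal_add (by positivity) (by positivity), ← ENNReal.ofReal_natCast,
          ← ENNReal.ofReal_mul (by positivity)]
        congr 1
        push_cast
        ring

end AN81
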